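import Pool.Agent.Helper93_Refl.Lina

/-!
# NORM: norms of roots
-/

namespace Pool.Agent.Refl.H93

open Matrix Pool.Agent.Refl

theorem lat_det_ne {G : M4} (h : Lat G) : G.det ≠ 0 := by
  obtain ⟨P, hP, hPG⟩ := h.sig
  intro h0
  have h1 := congrArg Matrix.det hPG
  rw [Matrix.det_mul, Matrix.det_mul, Matrix.det_transpose, Matrix.det_diagonal] at h1
  have h2 : (G.map (Int.cast : ℤ → ℝ)).det = (G.det : ℝ) :=
    ((Int.castRingHom ℝ).map_det G).symm
  rw [h2, h0] at h1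
  simp [Fin.prod_univ_four] at h1

theorem dvp_spec (g : ℕ → Bool) (p e : ℕ) : ∀ K0, K.dvp g p e K0 = true →
    ∀ j ≤ e, g (K0 * p ^ j) = true := by
  induction e with
  | zero =>
    intro K0 h j hj
    obtain rfl : j = 0 := by omega
    rw [pow_zero, mul_one]
    exact h
  | succ e ih =>
    intro K0 h j hj
    have h' : K.ands (g K0) (K.dvp g p e (K0 * p)) = true := h
    rw [ands_iff] at h'
    cases j with
    | zero => rw [pow_zero, mul_one]; exact h'.1
    | succ j =>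
      have := ih (K0 * p) h'.2 j (by omega)
      rwa [mul_assoc, ← pow_succ'] at this

theorem dvl_spec (hP : PrimeStmt) (g : ℕ → Bool) (l : List ℕ) : ∀ K0, K.dvl g l K0 = true →
    K.prl l ≠ 0 → ∀ D, D ∣ K.prl l → g (K0 * D) = true := by
  induction l with
  | nil =>
    intro K0 h _ D hD
    have h1 : K.prl [] = 1 := rfl
    rw [h1, Nat.dvd_one] at hD
    rw [hD, mul_one]
    have h2 : K.dvl g [] K0 = K.fc K0 fun K => g K := rfl
    rw [h2, fc_eq] at h
    exact h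
  | cons x l ih =>
    intro K0 h hne D hD
    have h1 : K.dvl g (x :: l) K0 = K.dvp (K.dvl g l) (x / 16) (x % 16) K0 := rfl
    have h2 : K.prl (x :: l) = Bool.rec (motive := fun _ => ℕ) 0
      ((x / 16) ^ (x % 16) * K.prl l) (K.isPrime (x / 16)) := rfl
    rw [h1] at h
    have hpr : K.isPrime (x / 16) = true := by
      by_contra h3
      rw [Bool.not_eq_true] at h3
      rw [h2, h3] at hne
      exact hne rfl
    have h3 : K.prl (x :: l) = (x / 16) ^ (x % 16) * K.prl l := by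
      rw [h2, hpr]
    rw [h3] at hD hne
    have hp := (hP _ hpr).1
    obtain ⟨y, z, hy, hz, rfl⟩ := (Nat.dvd_mul).1 hD
    obtain ⟨j, hj, rfl⟩ := (Nat.dvd_prime_pow hp).1 hy
    have h4 := dvp_spec _ _ _ _ h j hj
    have h5 := ih _ h4 (right_ne_zero_of_mul hne) z hz
    rwa [← mul_assoc]

theorem root_dvd_mulVec {R : M4} {r : Z4} (hr : IsRoot R r) (i : Fin 4) :
    bz R r r ∣ 2 * R.mulVec r i := by
  have h1 := hr.dvd (Pi.single i 1)
  rwa [bz_eq R (Pi.single i 1) r, single_one_dotProduct] at h1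

theorem not_sq_dvd {R : M4} (hR : Reduced R) {r : Z4} (hr : IsRoot R r) {p : ℕ}
    (hp : p ∈ [2, 3, 5, 7]) (h : ∀ i, (p : ℤ) ^ 2 ∣ R.mulVec r i) : False := by
  have hs := (hR.2.1 p hp).1 r h
  have h1 := hr.prim (p : ℤ) hs
  have hpp : p.Prime := by
    simp only [List.mem_cons, List.not_mem_nil, or_false] at hp
    rcases hp with rfl | rfl | rfl | rfl <;> norm_num
  have h2 := Int.isUnit_iff_natAbs_eq.1 h1
  rw [Int.natAbs_natCast] at h2
  exact hpp.one_lt.ne' h2

theorem norm (hDvd : RootDvdStmt) (hPrime : PrimeStmt) : NormStmt := by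
  intro R r ml hL hRed hr hprl g hg
  set Kn : ℕ := (bz R r r).natAbs with hKn
  set d : ℕ := R.det.natAbs with hd
  have hKpos : 0 < Kn := Int.natAbs_pos.2 hr.pos.ne'
  have hKcast : (Kn : ℤ) = bz R r r := by
    rw [hKn, Int.natCast_natAbs, abs_of_pos hr.pos]
  have hdpos : 0 < d := Int.natAbs_pos.2 (lat_det_ne hL)
  -- `K ∣ 2 d`
  have hK2d : Kn ∣ 2 * d := by
    have h1 := Int.natAbs_dvd_natAbs.2 (hDvd R hL r hr)
    rwa [Int.natAbs_mul] at h1
  -- no squares
  have hodd : ∀ p : ℕ, p ∈ [3, 5, 7] → ¬ p ^ 2 ∣ Kn := by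
    intro p hp h
    refine not_sq_dvd hRed hr (p := p) (List.mem_cons_of_mem _ hp) fun i => ?_
    have h1 : ((p ^ 2 : ℕ) : ℤ) ∣ 2 * R.mulVec r i := by
      refine dvd_trans ?_ (root_dvd_mulVec hr i)
      rw [← hKcast]
      exact_mod_cast h
    have h2 : IsCoprime ((p ^ 2 : ℕ) : ℤ) 2 := by
      simp only [List.mem_cons, List.not_mem_nil, or_false] at hp
      rcases hp with rfl | rfl | rfl <;> · rw [Int.isCoprime_iff_gcd_eq_one]; rfl
    have h3 := h2.dvd_of_dvd_mul_left h1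
    rwa [Nat.cast_pow] at h3
  have h8 : ¬ 8 ∣ Kn := by
    intro h
    refine not_sq_dvd hRed hr (p := 2) (by simp) fun i => ?_
    have h1 : (8 : ℤ) ∣ 2 * R.mulVec r i := by
      refine dvd_trans ?_ (root_dvd_mulVec hr i)
      rw [← hKcast]
      exact_mod_cast h
    have h2 : (2 : ℤ) * 2 ^ 2 ∣ 2 * R.mulVec r i := by
      have : (2 : ℤ) * 2 ^ 2 = 8 := by norm_num
      rw [this]
      exact h1
    exact_mod_cast (mul_dvd_mul_iff_left (two_ne_zero)).1 h2
  -- decompose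
  set g0 := Nat.gcd Kn 420 with hg0
  obtain ⟨K2, hK2⟩ : g0 ∣ Kn := Nat.gcd_dvd_left _ _
  have hg0dvd : g0 ∣ 420 := Nat.gcd_dvd_right _ _
  have hgcd : ∀ q, q ∣ Kn → q ∣ 420 → q ∣ g0 := fun q h1 h2 => Nat.dvd_gcd h1 h2
  have hc : ∀ p : ℕ, p ∈ [3, 5, 7] → ¬ p ∣ K2 := by
    intro p hp h
    have h1 : p ∣ Kn := by rw [hK2]; exact h.mul_left _
    have h420 : p ∣ 420 := by
      simp only [List.mem_cons, List.not_mem_nil, or_false] at hp
      rcases hp with rfl | rfl | rfl <;> decide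
    have h2 := hgcd p h1 h420
    apply hodd p hp
    rw [hK2, pow_two]
    exact mul_dvd_mul h2 h
  have hc2 : ¬ 2 ∣ K2 := by
    intro h
    by_cases h4 : 4 ∣ g0
    · apply h8
      rw [hK2]
      exact mul_dvd_mul h4 h
    · apply h4
      refine hgcd 4 ?_ (by decide)
      have h1 : 2 ∣ Kn := by rw [hK2]; exact h.mul_left _
      have h2 : 2 ∣ g0 := hgcd 2 h1 (by decide)
      rw [hK2]
      exact mul_dvd_mul h2 h
  have hcop : Nat.Coprime K2 210 := by
    have e : (210 : ℕ) = 2 * (3 * (5 * 7)) := by norm_num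
    rw [e]
    have hcp : ∀ p : ℕ, p.Prime → ¬ p ∣ K2 → Nat.Coprime K2 p := fun p hp h =>
      ((Nat.Prime.coprime_iff_not_dvd hp).2 h).symm
    refine Nat.Coprime.mul_right (hcp 2 (by norm_num) hc2) (Nat.Coprime.mul_right
      (hcp 3 (by norm_num) (hc 3 (by simp))) (Nat.Coprime.mul_right
      (hcp 5 (by norm_num) (hc 5 (by simp))) (hcp 7 (by norm_num) (hc 7 (by simp)))))
  have hcop2 : Nat.Coprime K2 2 := Nat.Coprime.coprime_dvd_right (by decide) hcop
  -- the number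
  set G := Nat.gcd d (210 ^ 60) with hG
  have hGd : G ∣ d := Nat.gcd_dvd_left _ _
  have hcopG : Nat.Coprime K2 G :=
    Nat.Coprime.coprime_dvd_right (Nat.gcd_dvd_right _ _) (hcop.pow_right 60)
  have hK2d' : K2 ∣ d / G := by
    have h1 : K2 ∣ 2 * d := (Dvd.intro_left _ hK2.symm).trans hK2d
    have h2 : K2 ∣ d := hcop2.dvd_of_dvd_mul_left h1
    have h3 : d = G * (d / G) := (Nat.mul_div_cancel' hGd).symm
    rw [h3] at h2
    exact hcopG.dvd_of_dvd_mul_left h2
  have hKdvd : Kn ∣ 420 * (d / G) := by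
    rw [hK2]
    exact mul_dvd_mul hg0dvd hK2d'
  have hnrm : K.nrm d = Nat.gcd (2 * d) (420 * (d / G)) := rfl
  have hKnrm : Kn ∣ K.nrm d := by
    rw [hnrm]
    exact Nat.dvd_gcd hK2d hKdvd
  have hne : K.prl ml ≠ 0 := by
    rw [hprl, hnrm]
    exact (Nat.gcd_pos_of_pos_left _ (by omega)).ne'
  have h5 := dvl_spec hPrime g ml 1 hg hne Kn (by rw [hprl]; exact hKnrm)
  rwa [one_mul] at h5

end Pool.Agent.Refl.H93
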