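import Pool.Agent.Helper93_Refl.Trans
import Pool.Agent.Helper92_Refl.B0

/-!
# D5: non reflective sublattices
-/

namespace Pool.Agent.Refl.H93

open Matrix Pool.Agent.Refl

/-- real reflection -/
noncomputable def rf (R : M4) (v x : R4) : R4 := x - (2 * br R x v / br R v v) • v

theorem rf_smul (R : M4) {t : ℝ} (ht : t ≠ 0) (v x : R4) : rf R (t • v) x = rf R v x := by
  unfold rf
  rw [H92.br_smul_right, H92.br_smul_right, H92.br_smul_left, smul_smul]
  congr 2
  by_cases h : br R v v = 0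
  · simp [h]
  · field_simp

theorem mat_ext {A B : M4} (h : ∀ x : Z4, A.mulVec x = B.mulVec x) : A = B :=
  Matrix.ext_of_mulVec_single fun i => h (Pi.single i 1)

theorem up_inj {x y : Z4} (h : up x = up y) : x = y := by
  funext i
  have := congrFun h i
  simpa [up] using this

theorem up_smul (a : ℤ) (x : Z4) : up (a • x) = (a : ℝ) • up x := by
  funext i
  simp [up]

theorem up_sub (x y : Z4) : up (x - y) = up x - up y := by
  funext i
  simp [up]

/-- the integer formula for a reflection, in a root -/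
theorem rm_mulVec {R : M4} {e : Z4} (he : IsRoot R e) (x : Z4) :
    bz R e e • (rm R e).mulVec x = bz R e e • x - (2 * bz R x e) • e := by
  have hd : ∀ j, bz R e e * (2 * R.mulVec e j / bz R e e) = 2 * R.mulVec e j := by
    intro j
    apply Int.mul_ediv_cancel'
    have := he.dvd (Pi.single j 1)
    rw [bz_eq R (Pi.single j 1) e, single_one_dotProduct] at this
    exact this
  have hx : (2 * bz R x e) = ∑ j, 2 * R.mulVec e j * x j := by
    rw [bz_eq, dotProduct, Finset.mul_sum]
    exact Finset.sum_congr rfl fun j _ => by ring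
  funext i
  have h1 : (rm R e).mulVec x i = x i - e i * ∑ j, (2 * R.mulVec e j / bz R e e) * x j := by
    have h2 : (rm R e).mulVec x i =
        ∑ j, (((if i = j then 1 else 0) - e i * (2 * R.mulVec e j / bz R e e)) * x j) := rfl
    rw [h2, Finset.mul_sum]
    simp only [sub_mul, Finset.sum_sub_distrib, ite_mul, one_mul, zero_mul, Finset.sum_ite_eq,
      Finset.mem_univ, if_true]
    congr 1
    exact Finset.sum_congr rfl fun j _ => by ring
  rw [Pi.smul_apply, Pi.sub_apply, Pi.smul_apply, Pi.smul_apply, smul_eq_mul, smul_eq_mul,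
    smul_eq_mul, h1, hx, mul_sub]
  congr 1
  calc bz R e e * (e i * ∑ j, 2 * R.mulVec e j / bz R e e * x j)
      = e i * ∑ j, (bz R e e * (2 * R.mulVec e j / bz R e e)) * x j := by
        rw [Finset.mul_sum, Finset.mul_sum, Finset.mul_sum]
        exact Finset.sum_congr rfl fun j _ => by ring
    _ = (∑ j, 2 * R.mulVec e j * x j) * e i := by
        rw [mul_comm]
        congr 1
        exact Finset.sum_congr rfl fun j _ => by rw [hd j]

/-- real form of an integer reflection formula -/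
theorem up_refl {R : M4} {v : Z4} {h : M4} (hv : 0 < bz R v v)
    (hf : ∀ x : Z4, bz R v v • h.mulVec x = bz R v v • x - (2 * bz R x v) • v) (x : Z4) :
    up (h.mulVec x) = rf R (up v) (up x) := by
  have h1 := congrArg up (hf x)
  rw [up_sub, up_smul, up_smul, up_smul] at h1
  have hv' : (bz R v v : ℝ) ≠ 0 := by exact_mod_cast hv.ne'
  unfold rf
  rw [H92.br_up, H92.br_up]
  have h2 : up (h.mulVec x) = (bz R v v : ℝ)⁻¹ • ((bz R v v : ℝ) • up (h.mulVec x)) := by
    rw [smul_smul, inv_mul_cancel₀ hv', one_smul]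
  rw [h2, h1, smul_sub, smul_smul, inv_mul_cancel₀ hv', one_smul, smul_smul]
  congr 2
  push_cast
  field_simp

theorem up_rm {R : M4} {e : Z4} (he : IsRoot R e) (x : Z4) :
    up ((rm R e).mulVec x) = rf R (up e) (up x) := up_refl he.pos (rm_mulVec he) x

/-- two reflections in proportional vectors -/
theorem refl_eq {R : M4} {v w : Z4} {g h : M4} (hv : 0 < bz R v v) (hw : 0 < bz R w w)
    (hg : ∀ x : Z4, bz R v v • g.mulVec x = bz R v v • x - (2 * bz R x v) • v)
    (hh : ∀ x : Z4, bz R w w • h.mulVec x = bz R w w • x - (2 * bz R x w) • w)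
    {t : ℝ} (ht : t ≠ 0) (hvw : up v = t • up w) : g = h := by
  apply mat_ext
  intro x
  apply up_inj
  rw [up_refl hv hg, up_refl hw hh, hvw, rf_smul R ht]

/-- the reflection in a root as an isometry -/
theorem rm_sq {R : M4} {e : Z4} (he : IsRoot R e) : rm R e * rm R e = 1 := by
  apply mat_ext
  intro x
  have hv' : (bz R e e : ℝ) ≠ 0 := by exact_mod_cast he.pos.ne'
  apply up_inj
  rw [← Matrix.mulVec_mulVec, up_rm he, up_rm he, Matrix.one_mulVec]
  unfold rf
  rw [H92.br_sub_left, H92.br_smul_left, H92.br_up, H92.br_up]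
  rw [sub_sub, ← add_smul]
  have : 2 * (bz R x e : ℝ) / (bz R e e : ℝ) + 2 * ((bz R x e : ℝ) - 2 * (bz R x e : ℝ) /
      (bz R e e : ℝ) * (bz R e e : ℝ)) / (bz R e e : ℝ) = 0 := by
    field_simp
    ring
  rw [this, zero_smul, sub_zero]

/-- the reflection in a root -/
def su {R : M4} {e : Z4} (he : IsRoot R e) : M4ˣ := ⟨rm R e, rm R e, rm_sq he, rm_sq he⟩

theorem mat_ext_bz {A B : M4} (h : ∀ x y : Z4, bz A x y = bz B x y) : A = B := by
  ext i j
  have := h (Pi.single i 1) (Pi.single j 1)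
  rw [bz_eq, bz_eq, single_one_dotProduct, single_one_dotProduct, Matrix.mulVec_single_one,
    Matrix.mulVec_single_one] at this
  exact this

theorem og_of_bz {R : M4} {g : M4ˣ}
    (h : ∀ x y : Z4, bz R ((g : M4).mulVec x) ((g : M4).mulVec y) = bz R x y) : g ∈ OG R := by
  show (g : M4).transpose * R * (g : M4) = R
  apply mat_ext_bz
  intro x y
  rw [← h x y, bz_eq, bz_eq, ← Matrix.mulVec_mulVec, ← Matrix.mulVec_mulVec,
    Matrix.dotProduct_mulVec x, Matrix.vecMul_transpose]

theorem su_mem {R : M4} (hR : R.transpose = R) {e : Z4} (he : IsRoot R e) : su he ∈ OG R := by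
  apply og_of_bz
  intro x y
  have hv' : (bz R e e : ℝ) ≠ 0 := by exact_mod_cast he.pos.ne'
  have h1 : (bz R ((rm R e).mulVec x) ((rm R e).mulVec y) : ℝ) = (bz R x y : ℝ) := by
    rw [← H92.br_up, up_rm he, up_rm he]
    unfold rf
    simp only [H92.br_sub_left, H92.br_sub_right, H92.br_smul_left, H92.br_smul_right,
      H92.br_up]
    rw [H92.bz_comm hR e y]
    field_simp
    ring
  exact_mod_cast h1

/-- primitive vector on the ray of a nonzero vector -/
theorem exists_prim (v : Z4) (hv : v ≠ 0) : ∃ (m : ℤ) (r : Z4), 0 < m ∧ v = m • r ∧ Prim4 r := by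
  set m : ℤ := (Finset.univ : Finset (Fin 4)).gcd v with hm
  have hm0 : m ≠ 0 := by
    intro h0
    apply hv
    funext i
    exact Finset.gcd_eq_zero_iff.1 h0 i (Finset.mem_univ i)
  have hd : ∀ i, (|m| : ℤ) ∣ v i := fun i => (abs_dvd _ _).2 (Finset.gcd_dvd (Finset.mem_univ i))
  choose r hr using hd
  refine ⟨|m|, r, abs_pos.2 hm0, funext fun i => hr i, ?_⟩
  intro d hdr
  have h1 : |m| * d ∣ m := by
    refine Finset.dvd_gcd fun i _ => ?_
    rw [hr i]
    exact mul_dvd_mul_left _ (hdr i)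
  have h2 : |m| * d ∣ |m| * 1 := by
    rw [mul_one]
    exact (dvd_abs _ _).2 h1
  exact isUnit_of_dvd_one ((mul_dvd_mul_iff_left (abs_ne_zero.2 hm0)).1 h2)

theorem prim_bezout {r : Z4} (hr : Prim4 r) : ∃ a : Z4, ∑ i, a i * r i = 1 := by
  obtain ⟨a, ha⟩ := Finset.gcd_eq_sum_mul (Finset.univ : Finset (Fin 4)) r
  have hu : IsUnit ((Finset.univ : Finset (Fin 4)).gcd r) :=
    hr _ fun i => Finset.gcd_dvd (Finset.mem_univ i)
  have ha : (Finset.univ : Finset (Fin 4)).gcd r = ∑ i, a i * r i := by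
    rw [ha]
    exact Finset.sum_congr rfl fun i _ => mul_comm _ _
  rcases Int.isUnit_iff.1 hu with h | h
  · exact ⟨a, by rw [← h, ha]⟩
  · exact ⟨-a, by
      have : ∑ i, (-a) i * r i = - ∑ i, a i * r i := by simp
      rw [this, ← ha, h]; norm_num⟩

/-- the vector of a reflection is a multiple of a root -/
theorem root_of_refl {R : M4} {v : Z4} {h : M4} (hv : 0 < bz R v v)
    (hf : ∀ x : Z4, bz R v v • h.mulVec x = bz R v v • x - (2 * bz R x v) • v) :
    ∃ (m : ℤ) (r : Z4), 0 < m ∧ v = m • r ∧ IsRoot R r ∧ h = rm R r := by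
  have hv0 : v ≠ 0 := by
    rintro rfl
    simp [bz] at hv
  obtain ⟨m, r, hm, hvr, hpr⟩ := exists_prim v hv0
  have hmm : bz R v v = m ^ 2 * bz R r r := by
    rw [hvr, bz_eq, bz_eq, Matrix.mulVec_smul, smul_dotProduct, dotProduct_smul, smul_eq_mul,
      smul_eq_mul]
    ring
  have hr : 0 < bz R r r := by
    rw [hmm] at hv
    exact pos_of_mul_pos_right hv (sq_nonneg m)
  have hf' : ∀ x : Z4, bz R r r • h.mulVec x = bz R r r • x - (2 * bz R x r) • r := by
    intro x
    apply cancel_smul (pow_ne_zero 2 hm.ne')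
    have h1 := hf x
    have h2 : bz R x v = m * bz R x r := by
      rw [hvr, bz_eq, bz_eq, Matrix.mulVec_smul, dotProduct_smul, smul_eq_mul]
    rw [hmm, h2] at h1
    rw [smul_smul, h1, hvr, smul_sub, smul_smul, smul_smul, smul_smul]
    congr 2
    ring
  have hroot : IsRoot R r := by
    refine ⟨hr, ?_, hpr⟩
    intro x
    obtain ⟨a, ha⟩ := prim_bezout hpr
    have h1 : ∀ i, bz R r r ∣ 2 * bz R x r * r i := by
      intro i
      have := congrFun (hf' x) i
      simp only [Pi.smul_apply, Pi.sub_apply, smul_eq_mul] at this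
      exact ⟨x i - h.mulVec x i, by linear_combination this⟩
    have h2 : 2 * bz R x r = ∑ i, a i * (2 * bz R x r * r i) := by
      calc 2 * bz R x r = 2 * bz R x r * ∑ i, a i * r i := by rw [ha, mul_one]
        _ = _ := by
          rw [Finset.mul_sum]
          exact Finset.sum_congr rfl fun i _ => by ring
    rw [h2]
    exact Finset.dvd_sum fun i _ => (h1 i).mul_left _
  exact ⟨m, r, hm, hvr, hroot, refl_eq hr hr hf' (rm_mulVec hroot) one_ne_zero (by simp)⟩

theorem root_mulVec {R : M4} {g : M4ˣ} (hg : g ∈ OG R) {r : Z4} (hr : IsRoot R r) :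
    IsRoot R ((g : M4).mulVec r) := by
  have hginv : ∀ x : Z4, (g : M4).mulVec (((g⁻¹ : M4ˣ) : M4).mulVec x) = x := by
    intro x
    rw [Matrix.mulVec_mulVec]
    simp
  refine ⟨by rw [H92.bz_act hg]; exact hr.pos, ?_, ?_⟩
  · intro x
    rw [H92.bz_act hg, ← hginv x, H92.bz_act hg]
    exact hr.dvd _
  · intro d hd
    apply hr.prim d
    intro i
    have h1 : r = ((g⁻¹ : M4ˣ) : M4).mulVec ((g : M4).mulVec r) := by
      rw [Matrix.mulVec_mulVec]
      simp
    rw [h1]
    simp only [Matrix.mulVec, dotProduct]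
    exact Finset.dvd_sum fun j _ => (hd j).mul_left _

/-- a small step stays in the cone -/
theorem small_step {n : ℕ} (a b : Fin n → ℝ) (h : ∀ m, a m < 0 ∨ (a m ≤ 0 ∧ b m = 0)) :
    ∃ ε : ℝ, 0 < ε ∧ ∀ m, a m + ε * b m ≤ 0 := by
  have h1 : ∀ᶠ ε in nhdsWithin (0 : ℝ) (Set.Ioi 0), ∀ m, a m + ε * b m ≤ 0 := by
    rw [Filter.eventually_all]
    intro m
    rcases h m with h | ⟨h, h'⟩
    · have hc : Filter.Tendsto (fun ε : ℝ => a m + ε * b m) (nhdsWithin 0 (Set.Ioi 0))
          (nhds (a m + 0 * b m)) := by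
        apply Filter.Tendsto.mono_left _ nhdsWithin_le_nhds
        exact (Continuous.tendsto (by fun_prop) 0)
      rw [zero_mul, add_zero] at hc
      exact (hc.eventually_lt_const h).mono fun _ h => h.le
    · exact Filter.Eventually.of_forall fun ε => by rw [h', mul_zero, add_zero]; exact h
  have h2 : ∀ᶠ ε in nhdsWithin (0 : ℝ) (Set.Ioi 0), 0 < ε := self_mem_nhdsWithin
  obtain ⟨ε, h3, h4⟩ := (h2.and h1).exists
  exact ⟨ε, h3, h4⟩

/-- crossing lemma: a root which separates `O` and `s_i O` is the facet root -/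
theorem crossing {R : M4} {n : ℕ} {e : Fin n → Z4} {O : R4} (hL : Lat R) (hC : Cham R n e O)
    {ρ : Z4} (hρ : IsRoot R ρ) (i : Fin n) (h1 : br R O (up ρ) < 0)
    (h2 : 0 ≤ br R O (up ((rm R (e i)).mulVec ρ))) : rm R ρ = rm R (e i) := by
  have hOK : ∀ m, br R O (up (e m)) ≤ 0 := fun m => (hC.neg m).le
  have hsρ : IsRoot R ((rm R (e i)).mulVec ρ) := root_mulVec (su_mem hL.symm (hC.root i)) hρ
  have hei : (0 : ℝ) < (bz R (e i) (e i) : ℝ) := by exact_mod_cast (hC.root i).pos
  -- `ρ ≤ 0` on the cone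
  have hle : ∀ x : R4, (∀ m, br R x (up (e m)) ≤ 0) → br R x (up ρ) ≤ 0 := by
    rcases hC.sep ρ hρ with h | h
    · exact h
    · exact absurd (h O hOK) (not_le.2 h1)
  have hge : ∀ x : R4, (∀ m, br R x (up (e m)) ≤ 0) →
      0 ≤ br R x (up ((rm R (e i)).mulVec ρ)) := by
    rcases hC.sep _ hsρ with h | h
    · exfalso
      have h0 : br R O (up ((rm R (e i)).mulVec ρ)) = 0 := le_antisymm (h O hOK) h2
      obtain ⟨ε, hε, hs⟩ := small_step (fun m => br R O (up (e m)))
        (fun m => br R (up ((rm R (e i)).mulVec ρ)) (up (e m))) (fun m => Or.inl (hC.neg m))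
      have h3 := h (O + ε • up ((rm R (e i)).mulVec ρ)) (fun m => by
        rw [H92.br_add_left, H92.br_smul_left]
        exact hs m)
      rw [H92.br_add_left, H92.br_smul_left, h0, zero_add, H92.br_up] at h3
      have h4 : (0 : ℝ) < (bz R ((rm R (e i)).mulVec ρ) ((rm R (e i)).mulVec ρ) : ℝ) := by
        exact_mod_cast hsρ.pos
      exact absurd h3 (not_le.2 (mul_pos hε h4))
    · exact h
  -- on the facet both vanish
  have hfac : ∀ x : R4, (∀ m, br R x (up (e m)) ≤ 0) → br R x (up (e i)) = 0 →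
      br R x (up ρ) = 0 := by
    intro x hx hxi
    have h3 := hge x hx
    rw [up_rm (hC.root i)] at h3
    unfold rf at h3
    rw [H92.br_sub_right, H92.br_smul_right, hxi, mul_zero, sub_zero] at h3
    exact le_antisymm (hle x hx) h3
  -- the projection of `O` is in the interior of the facet
  set O' : R4 := O - (br R O (up (e i)) / bz R (e i) (e i)) • up (e i) with hO'
  have hO'i : br R O' (up (e i)) = 0 := by
    rw [hO', H92.br_sub_left, H92.br_smul_left, H92.br_up, div_mul_cancel₀ _ hei.ne', sub_self]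
  have hO'm : ∀ m, m ≠ i → br R O' (up (e m)) < 0 := by
    intro m hm
    rw [hO', H92.br_sub_left, H92.br_smul_left, H92.br_up]
    have h3 := hC.neg m
    have h4 := hC.neg i
    have h5 : (bz R (e i) (e m) : ℝ) ≤ 0 := by exact_mod_cast hC.obt i m (Ne.symm hm)
    have h6 : 0 ≤ br R O (up (e i)) / (bz R (e i) (e i) : ℝ) * (bz R (e i) (e m) : ℝ) :=
      mul_nonneg_of_nonpos_of_nonpos (div_nonpos_of_nonpos_of_nonneg h4.le hei.le) h5
    linarith
  have hO'K : ∀ m, br R O' (up (e m)) ≤ 0 := by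
    intro m
    by_cases hm : m = i
    · rw [hm, hO'i]
    · exact (hO'm m hm).le
  have hort : ∀ y : R4, br R y (up (e i)) = 0 → br R y (up ρ) = 0 := by
    intro y hy
    obtain ⟨ε, hε, hs⟩ := small_step (fun m => br R O' (up (e m)))
      (fun m => br R y (up (e m))) (fun m => by
        by_cases hm : m = i
        · right
          rw [hm]
          exact ⟨hO'i.le, hy⟩
        · left
          exact hO'm m hm)
    have h3 := hfac (O' + ε • y) (fun m => by
        rw [H92.br_add_left, H92.br_smul_left]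
        exact hs m) (by rw [H92.br_add_left, H92.br_smul_left, hO'i, hy, mul_zero, add_zero])
    rw [H92.br_add_left, H92.br_smul_left, hfac O' hO'K hO'i, zero_add] at h3
    exact (mul_eq_zero.1 h3).resolve_left hε.ne'
  -- so `ρ` is proportional to `e i`
  set y : Z4 := bz R (e i) (e i) • ρ - bz R ρ (e i) • e i with hy
  have hyi : bz R y (e i) = 0 := by
    have h3 : (bz R y (e i) : ℝ) = 0 := by
      rw [← H92.br_up, hy, up_sub, up_smul, up_smul, H92.br_sub_left, H92.br_smul_left,
        H92.br_smul_left, H92.br_up, H92.br_up]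
      ring
    exact_mod_cast h3
  have hyρ : bz R y ρ = 0 := by
    have h3 := hort (up y) (by rw [H92.br_up, hyi]; simp)
    rw [H92.br_up] at h3
    exact_mod_cast h3
  have hyy : bz R y y = 0 := by
    have h4 : y ⬝ᵥ R.mulVec (e i) = 0 := by rw [← bz_eq]; exact hyi
    have h5 : y ⬝ᵥ R.mulVec ρ = 0 := by rw [← bz_eq]; exact hyρ
    have h6 : R.mulVec y = bz R (e i) (e i) • R.mulVec ρ - bz R ρ (e i) • R.mulVec (e i) := by
      rw [hy, Matrix.mulVec_sub, Matrix.mulVec_smul, Matrix.mulVec_smul]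
    rw [bz_eq, h6, dotProduct_sub, dotProduct_smul, dotProduct_smul, h4, h5]
    simp
  have hy0 := hL.anis y hyy
  have hup : (bz R (e i) (e i) : ℝ) • up ρ = (bz R ρ (e i) : ℝ) • up (e i) := by
    have := congrArg up hy0
    rw [hy, up_sub, up_smul, up_smul] at this
    have h0 : up (0 : Z4) = 0 := by funext j; simp [up]
    rw [h0] at this
    exact sub_eq_zero.1 this
  have hup2 : up ρ = ((bz R ρ (e i) : ℝ) / bz R (e i) (e i)) • up (e i) := by
    rw [div_eq_inv_mul, mul_smul, ← hup, smul_smul, inv_mul_cancel₀ hei.ne', one_smul]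
  have ht : ((bz R ρ (e i) : ℝ) / bz R (e i) (e i)) ≠ 0 := by
    intro h0
    rw [h0, zero_smul] at hup2
    rw [hup2, H92.br_zero_right] at h1
    exact lt_irrefl _ h1
  exact refl_eq hρ.pos (hC.root i).pos (rm_mulVec hρ) (rm_mulVec (hC.root i)) ht hup2

/-- conjugate of a reflection formula by an isometry -/
theorem refl_conj {R : M4} {P h : M4ˣ} (hP : P ∈ OG R) {v : Z4}
    (hf : ∀ x : Z4, bz R v v • (h : M4).mulVec x = bz R v v • x - (2 * bz R x v) • v) (x : Z4) :
    bz R ((P : M4).mulVec v) ((P : M4).mulVec v) • ((P * h * P⁻¹ : M4ˣ) : M4).mulVec x =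
      bz R ((P : M4).mulVec v) ((P : M4).mulVec v) • x -
        (2 * bz R x ((P : M4).mulVec v)) • (P : M4).mulVec v := by
  have hx : (P : M4).mulVec (((P⁻¹ : M4ˣ) : M4).mulVec x) = x := by
    rw [Matrix.mulVec_mulVec]
    simp
  have h1 : bz R x ((P : M4).mulVec v) = bz R (((P⁻¹ : M4ˣ) : M4).mulVec x) v := by
    conv_lhs => rw [← hx]
    exact H92.bz_act hP _ _
  rw [H92.bz_act hP, h1, Units.val_mul, Units.val_mul, ← Matrix.mulVec_mulVec,
    ← Matrix.mulVec_mulVec, ← Matrix.mulVec_smul, hf, Matrix.mulVec_sub, Matrix.mulVec_smul,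
    Matrix.mulVec_smul, hx]

/-- the integer formula of `refl_up` -/
theorem refl_up' {L R W W' : M4} {p c d : ℤ} (hp : 0 < p) (hc : 0 < c) (hd : 0 < d)
    (hW : W * W' = p • (1 : M4)) (h : c • L = d • (W.transpose * R * W)) {g h' : M4ˣ} {e : Z4}
    (he : 0 < bz L e e)
    (hg : ∀ x : Z4, bz L e e • (g : M4).mulVec x = bz L e e • x - (2 * bz L x e) • e)
    (hh : (h' : M4) * W = W * (g : M4)) : 0 < bz R (W.mulVec e) (W.mulVec e) ∧
    ∀ x : Z4, bz R (W.mulVec e) (W.mulVec e) • (h' : M4).mulVec x =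
      bz R (W.mulVec e) (W.mulVec e) • x - (2 * bz R x (W.mulVec e)) • (W.mulVec e) := by
  have hee := bz_W h e e
  refine ⟨?_, ?_⟩
  · have : 0 < d * bz R (W.mulVec e) (W.mulVec e) := by
      rw [← hee]; exact mul_pos hc he
    exact pos_of_mul_pos_right this hd.le
  · have key : ∀ y : Z4, bz R (W.mulVec e) (W.mulVec e) • (h' : M4).mulVec (W.mulVec y) =
        bz R (W.mulVec e) (W.mulVec e) • (W.mulVec y) -
          (2 * bz R (W.mulVec y) (W.mulVec e)) • (W.mulVec e) := by
      intro y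
      apply cancel_smul hd.ne'
      have h1 := congrArg (fun v => c • W.mulVec v) (hg y)
      simp only [Matrix.mulVec_sub, Matrix.mulVec_smul, smul_sub, smul_smul] at h1
      rw [Matrix.mulVec_mulVec, ← hh, ← Matrix.mulVec_mulVec, hee] at h1
      have h2 : c * (2 * bz L y e) = d * (2 * bz R (W.mulVec y) (W.mulVec e)) := by
        have := bz_W h y e
        linear_combination 2 * this
      rw [h2] at h1
      rw [smul_smul, h1, smul_sub, smul_smul, smul_smul]
    intro x
    apply cancel_smul hp.ne'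
    have h1 := key (W'.mulVec x)
    have h0 : W.mulVec (W'.mulVec x) = p • x := by
      rw [Matrix.mulVec_mulVec, hW, Matrix.smul_mulVec, Matrix.one_mulVec]
    rw [h0] at h1
    have h2 : bz R (p • x) (W.mulVec e) = p * bz R x (W.mulVec e) := by
      rw [bz_eq, bz_eq, smul_dotProduct, smul_eq_mul]
    rw [h2, Matrix.mulVec_smul] at h1
    rw [smul_comm, h1, smul_sub, smul_comm, smul_smul]
    have h3 : p * (2 * bz R x (W.mulVec e)) = 2 * (p * bz R x (W.mulVec e)) := by ring
    rw [smul_smul p (2 * bz R x (W.mulVec e)), h3]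

/-- the gallery -/
theorem gallery {R L W W' : M4} {n : ℕ} {e : Fin n → Z4} {O : R4} (hR : Lat R)
    (hC : Cham R n e O) {p c d : ℤ} (hp : 0 < p) (hc : 0 < c) (hd : 0 < d)
    (hW : W * W' = p • (1 : M4)) (h : c • L = d • (W.transpose * R * W)) (hL : Lat L)
    (H : ∀ g ∈ OG L, ∃ h ∈ OG R, (h : M4) * W = W * (g : M4)) (l : List (Fin n)) :
    ∀ P : M4ˣ, P ∈ OG R →
      (∀ r, IsRoot L r → br R O (up (W.mulVec r)) < 0 →
        br R O (up ((P : M4).mulVec (W.mulVec r))) < 0) →
      WordOK (fun i => rm R (e i)) W l (P : M4) →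
      ∃ Q ∈ OG R, (∃ V : M4, (Q : M4) * W = W * V) ∧ 4 < |(Q : M4).trace| ∧
        (∀ r, IsRoot L r → br R O (up (W.mulVec r)) < 0 →
          br R O (up ((Q : M4).mulVec (W.mulVec r))) < 0) := by
  induction l with
  | nil =>
    intro P hP hI hw
    exact ⟨P, hP, hw.1, hw.2, hI⟩
  | cons i l ih =>
    intro P hP hI hw
    obtain ⟨hno, hw⟩ := hw
    refine ih (su (hC.root i) * P) (Subgroup.mul_mem _ (su_mem hR.symm (hC.root i)) hP) ?_ hw
    intro r hr hneg
    by_contra hcon
    push Not at hcon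
    have h1 := hI r hr hneg
    apply hno
    obtain ⟨h', hh', hhW⟩ := H (su hr) (su_mem hL.symm hr)
    obtain ⟨hv, hf⟩ := refl_up' hp hc hd hW h hr.pos (rm_mulVec hr) hhW
    have hf2 := refl_conj hP hf
    rw [← H92.bz_act hP] at hv
    obtain ⟨m, ρ, hm, hvρ, hρ, hrm⟩ := root_of_refl hv hf2
    have hmR : (0 : ℝ) < m := by exact_mod_cast hm
    rw [hvρ, up_smul, H92.br_smul_right] at h1
    have h2 : br R O (up ρ) < 0 := by
      by_contra h3
      push Not at h3
      exact absurd h1 (not_lt.2 (mul_nonneg hmR.le h3))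
    have h4 : 0 ≤ br R O (up ((rm R (e i)).mulVec ρ)) := by
      rw [Units.val_mul, ← Matrix.mulVec_mulVec, hvρ, Matrix.mulVec_smul, up_smul,
        H92.br_smul_right] at hcon
      exact nonneg_of_mul_nonneg_right hcon hmR
    have h5 := crossing hR hC hρ i h2 h4
    refine ⟨(su hr : M4), ?_⟩
    show rm R (e i) * ((P : M4) * W) = (P : M4) * W * (su hr : M4)
    have hPP : ((P⁻¹ : M4ˣ) : M4) * (P : M4) = 1 := by simp
    rw [← h5, ← hrm, Units.val_mul, Units.val_mul, Matrix.mul_assoc, ← Matrix.mul_assoc _ (P : M4),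
      hPP, Matrix.one_mul, Matrix.mul_assoc, hhW, ← Matrix.mul_assoc]

theorem br_W {L R W : M4} {c d : ℤ} (h : c • L = d • (W.transpose * R * W)) (x y : R4) :
    (c : ℝ) * br L x y = d * br R (act W x) (act W y) := by
  have hmap : ∀ A B : M4, (A * B).map (Int.cast : ℤ → ℝ) =
      A.map (Int.cast : ℤ → ℝ) * B.map (Int.cast : ℤ → ℝ) := fun A B =>
    Matrix.map_mul (f := Int.castRingHom ℝ)
  have h7 : ∀ (a : ℤ) (A : M4), (a • A).map (Int.cast : ℤ → ℝ) =
      (a : ℝ) • A.map (Int.cast : ℤ → ℝ) := by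
    intro a A; ext i j
    simp only [Matrix.map_apply, Matrix.smul_apply, smul_eq_mul, Int.cast_mul]
  have h6 : (c • L).map (Int.cast : ℤ → ℝ) = (d • (W.transpose * R * W)).map
    (Int.cast : ℤ → ℝ) := by rw [h]
  rw [h7, h7, hmap, hmap] at h6
  have e1 : (c : ℝ) * br L x y = x ⬝ᵥ ((c : ℝ) • L.map (Int.cast : ℤ → ℝ)).mulVec y := by
    rw [H92.br_eq, Matrix.smul_mulVec, dotProduct_smul, smul_eq_mul]
    rfl
  rw [e1, h6, Matrix.smul_mulVec, dotProduct_smul, smul_eq_mul, H92.br_eq]
  congr 1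
  unfold act H92.gr
  rw [← Matrix.mulVec_mulVec, ← Matrix.mulVec_mulVec, Matrix.dotProduct_mulVec]
  congr 1
  exact Matrix.vecMul_transpose _ _

theorem wordStmt (hCh : ChamStmt) (hPe : PermStmt) (hFi : FinOrdStmt) (hTr : TraceStmt) :
    WordStmt := by
  intro R n e O hR hC L W W' p c d hp0 hc0 hd0 hW h hL H l _ hw hrefl
  have hp : (0 : ℤ) < p := by exact_mod_cast hp0
  have hc : (0 : ℤ) < c := by exact_mod_cast hc0
  have hd : (0 : ℤ) < d := by exact_mod_cast hd0
  have hpR : (0 : ℝ) < p := by exact_mod_cast hp0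
  have hcR : (0 : ℝ) < ((c : ℤ) : ℝ) := by exact_mod_cast hc0
  have hdR : (0 : ℝ) < ((d : ℤ) : ℝ) := by exact_mod_cast hd0
  obtain ⟨Q, hQ, ⟨V, hV⟩, htr, hI⟩ := gallery hR hC hp hc hd hW h hL H l 1 (one_mem _)
    (by
      intro r _ hr
      rw [Units.val_one, Matrix.one_mulVec]
      exact hr) hw
  obtain ⟨g, hg, hgV⟩ := og_down hp hc hW h hQ hV
  -- the base point for `L`
  set O' : R4 := (p : ℝ)⁻¹ • act W' O with hO'
  have hWO : act W O' = O := by
    rw [hO', H92.act_smul, ← H92.act_mul, hW]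
    have : act ((p : ℤ) • (1 : M4)) O = (p : ℝ) • O := by
      have h1 : ((p : ℤ) • (1 : M4)).map (Int.cast : ℤ → ℝ) =
          (p : ℝ) • (1 : Matrix (Fin 4) (Fin 4) ℝ) := by
        ext i j
        simp only [Matrix.map_apply, Matrix.smul_apply, smul_eq_mul, Int.cast_mul,
          Int.cast_natCast, Matrix.one_apply]
        split_ifs <;> simp
      unfold act
      rw [h1, Matrix.smul_mulVec, Matrix.one_mulVec]
    rw [this, smul_smul, inv_mul_cancel₀ hpR.ne', one_smul]
  have hL1 : ∀ r : Z4, ((c : ℤ) : ℝ) * br L O' (up r) =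
      ((d : ℤ) : ℝ) * br R O (up (W.mulVec r)) := by
    intro r
    rw [br_W h, hWO, H92.up_mulVec]
  have hneg : ∀ r : Z4, br L O' (up r) < 0 ↔ br R O (up (W.mulVec r)) < 0 := by
    intro r
    have := hL1 r
    constructor
    · intro h1
      have h2 : ((d : ℤ) : ℝ) * br R O (up (W.mulVec r)) < 0 := by
        rw [← this]
        exact mul_neg_of_pos_of_neg hcR h1
      exact neg_of_mul_neg_right h2 hdR.le
    · intro h1
      have h2 : ((c : ℤ) : ℝ) * br L O' (up r) < 0 := by
        rw [this]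
        exact mul_neg_of_pos_of_neg hdR h1
      exact neg_of_mul_neg_right h2 hcR.le
  have hO'neg : br L O' O' < 0 := by
    have h1 : ((c : ℤ) : ℝ) * br L O' O' < 0 := by
      rw [br_W h, hWO]
      exact mul_neg_of_pos_of_neg hdR hC.Oneg
    exact neg_of_mul_neg_right h1 hcR.le
  have hgen : ∀ r : Z4, IsRoot L r → br L O' (up r) ≠ 0 := by
    intro r hr h0
    have h1 := hL1 r
    rw [h0, mul_zero] at h1
    have h2 : br R O (up (W.mulVec r)) = 0 := by
      rcases mul_eq_zero.1 h1.symm with h3 | h3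
      · exact absurd h3 hdR.ne'
      · exact h3
    obtain ⟨h', hh', hhW⟩ := H (su hr) (su_mem hL.symm hr)
    obtain ⟨hv, hf⟩ := refl_up' hp hc hd hW h hr.pos (rm_mulVec hr) hhW
    obtain ⟨m, ρ, hm, hvρ, hρ, hrm⟩ := root_of_refl hv hf
    have hmR : (0 : ℝ) < m := by exact_mod_cast hm
    rw [hvρ, up_smul, H92.br_smul_right] at h2
    have h4 := (mul_eq_zero.1 h2).resolve_left hmR.ne'
    have hρR : (0 : ℝ) < (bz R ρ ρ : ℝ) := by exact_mod_cast hρ.pos
    rcases hC.sep ρ hρ with hs | hs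
    · obtain ⟨ε, hε, hst⟩ := small_step (fun m => br R O (up (e m)))
        (fun m => br R (up ρ) (up (e m))) (fun m => Or.inl (hC.neg m))
      have h5 := hs (O + ε • up ρ) (fun m => by
        rw [H92.br_add_left, H92.br_smul_left]
        exact hst m)
      rw [H92.br_add_left, H92.br_smul_left, h4, zero_add, H92.br_up] at h5
      exact absurd h5 (not_le.2 (mul_pos hε hρR))
    · obtain ⟨ε, hε, hst⟩ := small_step (fun m => br R O (up (e m)))
        (fun m => br R (-up ρ) (up (e m))) (fun m => Or.inl (hC.neg m))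
      have h5 := hs (O + ε • (-up ρ)) (fun m => by
        rw [H92.br_add_left, H92.br_smul_left]
        exact hst m)
      rw [H92.br_add_left, H92.br_smul_left, h4, zero_add, H92.br_neg_left, H92.br_up] at h5
      nlinarith [mul_pos hε hρR]
  obtain ⟨k, e', hC'⟩ := hCh L hL hrefl O' hO'neg hgen
  have hginv : g⁻¹ ∈ OG L := inv_mem hg
  have hperm := hPe L k e' O' hL hC' g⁻¹ hginv O' hC'.neg (by
    intro i
    have h1 : br L (act ((g⁻¹ : M4ˣ) : M4) O') (up (e' i)) = br L O' (up ((g : M4).mulVec (e' i))) := by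
      have h2 : up (e' i) = act ((g⁻¹ : M4ˣ) : M4) (up ((g : M4).mulVec (e' i))) := by
        rw [H92.up_mulVec, ← H92.act_mul]
        have : ((g⁻¹ : M4ˣ) : M4) * (g : M4) = 1 := by simp
        rw [this, H92.act_one]
      conv_lhs => rw [h2]
      exact H92.br_act hginv _ _
    rw [h1, hneg, Matrix.mulVec_mulVec, hgV, ← hV, ← Matrix.mulVec_mulVec]
    exact hI (e' i) (hC'.root i) ((hneg _).1 (hC'.neg i)))
  obtain ⟨m, hm, hgm⟩ := hFi L k e' O' hL hC' g⁻¹ hginv hperm
  have hgm' : (g : M4) ^ m = 1 := by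
    have h1 : (g⁻¹) ^ m = (1 : M4ˣ) := by
      apply Units.ext
      rw [Units.val_pow_eq_pow_val, Units.val_one]
      exact hgm
    have h2 : g ^ m = 1 := by
      rw [inv_pow] at h1
      exact inv_eq_one.1 h1
    rw [← Units.val_pow_eq_pow_val, h2, Units.val_one]
  have htrace := hTr (g : M4) m hm hgm'
  -- traces agree
  have h8 : (Q : M4).trace = V.trace := by
    have h9 : (p : ℤ) * (Q : M4).trace = p * V.trace := by
      calc (p : ℤ) * (Q : M4).trace = ((Q : M4) * (W * W')).trace := by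
            rw [hW, Matrix.mul_smul, Matrix.mul_one, Matrix.trace_smul, smul_eq_mul]
        _ = (W * V * W').trace := by rw [← Matrix.mul_assoc, hV]
        _ = (V * (W' * W)).trace := by
            rw [Matrix.mul_assoc, Matrix.trace_mul_comm, Matrix.mul_assoc]
        _ = p * V.trace := by
            rw [swap hp.ne' hW, Matrix.mul_smul, Matrix.mul_one, Matrix.trace_smul, smul_eq_mul]
    exact mul_left_cancel₀ hp.ne' h9
  rw [h8, ← hgV] at htr
  exact absurd htrace (not_le.2 htr)

end Pool.Agent.Refl.H93
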