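import Pool.Agent.Helper23_Refl.StmtD

/-!
# D1a: reflectivity goes up to a lattice which is stable under `O(L)`
-/

namespace Pool.Agent.Refl.H93

open Matrix Pool.Agent.Refl

theorem bz_eq (G : M4) (x y : Z4) : bz G x y = x ⬝ᵥ G.mulVec y := by
  simp only [bz, dotProduct, Matrix.mulVec, Finset.mul_sum]
  exact Finset.sum_congr rfl fun i _ => Finset.sum_congr rfl fun j _ => by ring

/-- a scalar product is zero only if ... -/
theorem cancel_smul {a : ℤ} (ha : a ≠ 0) {x y : Z4} (h : a • x = a • y) : x = y := by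
  funext i
  have := congrFun h i
  simp only [Pi.smul_apply, smul_eq_mul] at this
  exact mul_left_cancel₀ ha this

theorem cancel_smulM {a : ℤ} (ha : a ≠ 0) {x y : M4} (h : a • x = a • y) : x = y := by
  ext i j
  have := congrFun (congrFun h i) j
  simp only [Matrix.smul_apply, smul_eq_mul] at this
  exact mul_left_cancel₀ ha this

theorem det_ne {W W' : M4} {p : ℤ} (hp : p ≠ 0) (h : W * W' = p • (1 : M4)) : W.det ≠ 0 := by
  intro h0
  have h1 := congrArg Matrix.det h
  rw [Matrix.det_mul, h0, zero_mul, Matrix.det_smul, Matrix.det_one, mul_one] at h1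
  exact hp (by simpa using h1.symm)

theorem swap {W W' : M4} {p : ℤ} (hp : p ≠ 0) (h : W * W' = p • (1 : M4)) :
    W' * W = p • (1 : M4) := by
  have hd := det_ne hp h
  apply cancel_smulM hd
  calc W.det • (W' * W) = W.adjugate * W * (W' * W) := by
        rw [Matrix.adjugate_mul]; simp
    _ = W.adjugate * (W * W') * W := by simp only [Matrix.mul_assoc]
    _ = W.det • (p • (1 : M4)) := by
        rw [h]
        simp only [Matrix.mul_smul, Matrix.smul_mul, Matrix.mul_one, Matrix.adjugate_mul]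
        rw [smul_comm]

theorem cancelW {W W' : M4} {p : ℤ} (hp : p ≠ 0) (h : W * W' = p • (1 : M4)) {A B : M4}
    (hAB : A * W = B * W) : A = B := by
  apply cancel_smulM hp
  calc p • A = A * (W * W') := by rw [h, Matrix.mul_smul, Matrix.mul_one]
    _ = B * (W * W') := by rw [← Matrix.mul_assoc, hAB, Matrix.mul_assoc]
    _ = p • B := by rw [h, Matrix.mul_smul, Matrix.mul_one]

/-- the form of `L` is the form of `R` on the image of `W` -/
theorem bz_W {L R W : M4} {c d : ℤ} (h : c • L = d • (W.transpose * R * W)) (x y : Z4) :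
    c * bz L x y = d * bz R (W.mulVec x) (W.mulVec y) := by
  have e1 : c * bz L x y = x ⬝ᵥ (c • L).mulVec y := by
    rw [bz_eq, Matrix.smul_mulVec, dotProduct_smul, smul_eq_mul]
  rw [e1, h, Matrix.smul_mulVec, dotProduct_smul, smul_eq_mul, bz_eq]
  congr 1
  rw [← Matrix.mulVec_mulVec, ← Matrix.mulVec_mulVec, Matrix.dotProduct_mulVec,
    Matrix.vecMul_transpose]

theorem lat_up {L R W W' : M4} {p c d : ℤ} (hp : 0 < p) (hc : 0 < c) (hd : 0 < d)
    (hW : W * W' = p • (1 : M4)) (h : c • L = d • (W.transpose * R * W)) (hL : Lat L) :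
    Lat R := by
  refine ⟨?_, ?_, ?_⟩
  · have h1 : d • (W.transpose * R.transpose * W) = d • (W.transpose * R * W) := by
      have := congrArg Matrix.transpose h
      rw [Matrix.transpose_smul, Matrix.transpose_smul, hL.symm, Matrix.transpose_mul,
        Matrix.transpose_mul, Matrix.transpose_transpose, ← Matrix.mul_assoc] at this
      rw [← this, h]
    have h2 := cancel_smulM hd.ne' h1
    have h3 := cancelW hp.ne' hW h2
    have h4 : W'.transpose * W.transpose = p • (1 : M4) := by
      rw [← Matrix.transpose_mul, hW, Matrix.transpose_smul, Matrix.transpose_one]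
    apply cancel_smulM hp.ne'
    calc p • R.transpose = (W'.transpose * W.transpose) * R.transpose := by rw [h4]; simp
      _ = (W'.transpose * W.transpose) * R := by
        rw [Matrix.mul_assoc, h3, ← Matrix.mul_assoc]
      _ = p • R := by rw [h4]; simp
  · obtain ⟨P, hP, hP2⟩ := hL.sig
    have hcR : (0 : ℝ) < c := by exact_mod_cast hc
    have hdR : (0 : ℝ) < d := by exact_mod_cast hd
    set s : ℝ := Real.sqrt ((d : ℝ) / c) with hs
    have hs0 : 0 < s := Real.sqrt_pos.2 (div_pos hdR hcR)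
    have hss : s * s = (d : ℝ) / c := Real.mul_self_sqrt (div_pos hdR hcR).le
    set WR : Matrix (Fin 4) (Fin 4) ℝ := W.map (Int.cast : ℤ → ℝ) with hWR
    have hmap : ∀ A B : M4, (A * B).map (Int.cast : ℤ → ℝ) =
        A.map (Int.cast : ℤ → ℝ) * B.map (Int.cast : ℤ → ℝ) := fun A B =>
      Matrix.map_mul (f := Int.castRingHom ℝ)
    have hL2 : L.map (Int.cast : ℤ → ℝ) =
        ((d : ℝ) / c) • (WR.transpose * R.map (Int.cast : ℤ → ℝ) * WR) := by
      have h5 : (c : ℝ) • L.map (Int.cast : ℤ → ℝ) =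
          (d : ℝ) • (WR.transpose * R.map (Int.cast : ℤ → ℝ) * WR) := by
        have h6 : (c • L).map (Int.cast : ℤ → ℝ) = (d • (W.transpose * R * W)).map
          (Int.cast : ℤ → ℝ) := by rw [h]
        have h7 : ∀ (a : ℤ) (A : M4), (a • A).map (Int.cast : ℤ → ℝ) =
            (a : ℝ) • A.map (Int.cast : ℤ → ℝ) := by
          intro a A; ext i j
          simp only [Matrix.map_apply, Matrix.smul_apply, smul_eq_mul, Int.cast_mul]
        rw [h7, h7, hmap, hmap] at h6
        exact h6
      rw [div_eq_inv_mul, mul_smul, ← h5, smul_smul, inv_mul_cancel₀ hcR.ne', one_smul]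
    refine ⟨s • (WR * P), ?_, ?_⟩
    · rw [Matrix.det_smul, Matrix.det_mul]
      have hWd : WR.det ≠ 0 := by
        have : WR.det = ((W.det : ℤ) : ℝ) := by
          rw [hWR]
          exact ((Int.castRingHom ℝ).map_det W).symm
        rw [this]
        exact_mod_cast det_ne hp.ne' hW
      exact isUnit_iff_ne_zero.2 (mul_ne_zero (pow_ne_zero _ hs0.ne')
        (mul_ne_zero hWd hP.ne_zero))
    · rw [← hP2, hL2]
      simp only [Matrix.transpose_smul, Matrix.transpose_mul, Matrix.smul_mul, Matrix.mul_smul,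
        smul_smul, hss, Matrix.mul_assoc]
  · intro x hx
    have h1 := bz_W h (W'.mulVec x) (W'.mulVec x)
    rw [Matrix.mulVec_mulVec, hW] at h1
    have h2 : bz R ((p • (1 : M4)).mulVec x) ((p • (1 : M4)).mulVec x) = 0 := by
      rw [Matrix.smul_mulVec, Matrix.one_mulVec, bz_eq, Matrix.mulVec_smul, smul_dotProduct,
        dotProduct_smul, ← bz_eq, hx]
      simp
    rw [h2, mul_zero] at h1
    have h3 := hL.anis _ (by
      rcases mul_eq_zero.1 h1 with h | h
      · exact absurd h hc.ne'
      · exact h)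
    have h4 : p • x = 0 := by
      have : p • x = W.mulVec (W'.mulVec x) := by
        rw [Matrix.mulVec_mulVec, hW, Matrix.smul_mulVec, Matrix.one_mulVec]
      rw [this, h3, Matrix.mulVec_zero]
    exact cancel_smul hp.ne' (by rw [h4, smul_zero])

/-- reflections go to reflections -/
theorem refl_up {L R W W' : M4} {p c d : ℤ} (hp : 0 < p) (hc : 0 < c) (hd : 0 < d)
    (hW : W * W' = p • (1 : M4)) (h : c • L = d • (W.transpose * R * W)) {g h' : M4ˣ}
    (hg : IsReflection L g) (hh : (h' : M4) * W = W * (g : M4)) : IsReflection R h' := by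
  obtain ⟨e, he, hg⟩ := hg
  have hee := bz_W h e e
  refine ⟨W.mulVec e, ?_, ?_⟩
  · have : 0 < d * bz R (W.mulVec e) (W.mulVec e) := by
      rw [← hee]; exact mul_pos hc he
    exact pos_of_mul_pos_right this hd.le
  · have key : ∀ y : Z4, bz R (W.mulVec e) (W.mulVec e) • (h' : M4).mulVec (W.mulVec y) =
        bz R (W.mulVec e) (W.mulVec e) • (W.mulVec y) -
          (2 * bz R (W.mulVec y) (W.mulVec e)) • (W.mulVec e) := by
      intro y
      apply cancel_smul hd.ne'
      have h1 := congrArg (fun v => c • W.mulVec v) (hg y)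
      simp only [Matrix.mulVec_sub, Matrix.mulVec_smul, smul_sub, smul_smul] at h1
      rw [Matrix.mulVec_mulVec, ← hh, ← Matrix.mulVec_mulVec, hee] at h1
      have h2 : c * (2 * bz L y e) = d * (2 * bz R (W.mulVec y) (W.mulVec e)) := by
        have := bz_W h y e
        linear_combination 2 * this
      rw [h2] at h1
      rw [smul_smul, h1, smul_sub, smul_smul, smul_smul]
    intro x
    apply cancel_smul hp.ne'
    have h1 := key (W'.mulVec x)
    have h0 : W.mulVec (W'.mulVec x) = p • x := by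
      rw [Matrix.mulVec_mulVec, hW, Matrix.smul_mulVec, Matrix.one_mulVec]
    rw [h0] at h1
    have h2 : bz R (p • x) (W.mulVec e) = p * bz R x (W.mulVec e) := by
      rw [bz_eq, bz_eq, smul_dotProduct, smul_eq_mul]
    rw [h2, Matrix.mulVec_smul] at h1
    rw [smul_comm, h1, smul_sub, smul_comm, smul_smul]
    have h3 : p * (2 * bz R x (W.mulVec e)) = 2 * (p * bz R x (W.mulVec e)) := by ring
    rw [smul_smul p (2 * bz R x (W.mulVec e)), h3]

/-- matrices which normalize the image of `W` come from `O(L)` -/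
theorem og_down {L R W W' : M4} {p c d : ℤ} (hp : 0 < p) (hc : 0 < c)
    (hW : W * W' = p • (1 : M4)) (h : c • L = d • (W.transpose * R * W)) {h' : M4ˣ}
    (hh : h' ∈ OG R) {V : M4} (hV : (h' : M4) * W = W * V) :
    ∃ g ∈ OG L, (g : M4) = V := by
  have hdV : IsUnit V.det := by
    have h1 := congrArg Matrix.det hV
    rw [Matrix.det_mul, Matrix.det_mul, mul_comm] at h1
    have h2 := mul_left_cancel₀ (det_ne hp.ne' hW) h1
    rw [← h2]
    exact (Matrix.isUnit_iff_isUnit_det _).1 h'.isUnit
  obtain ⟨g, hg⟩ := (Matrix.isUnit_iff_isUnit_det V).2 hdV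
  refine ⟨g, ?_, hg⟩
  show (g : M4).transpose * L * (g : M4) = L
  rw [hg]
  apply cancel_smulM hc.ne'
  calc c • (V.transpose * L * V) = V.transpose * (c • L) * V := by
        simp only [Matrix.mul_smul, Matrix.smul_mul]
    _ = d • ((W * V).transpose * R * (W * V)) := by
        rw [h, Matrix.transpose_mul]
        simp only [Matrix.mul_smul, Matrix.smul_mul, Matrix.mul_assoc]
    _ = d • (W.transpose * ((h' : M4).transpose * R * (h' : M4)) * W) := by
        rw [← hV, Matrix.transpose_mul]
        simp only [Matrix.mul_assoc]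
    _ = c • L := by
        have : (h' : M4).transpose * R * (h' : M4) = R := hh
        rw [this, h]

/-- integer matrices as rational matrices -/
noncomputable def io : M4ˣ →* (Matrix (Fin 4) (Fin 4) ℚ)ˣ :=
  Units.map ((Int.castRingHom ℚ).mapMatrix : M4 →+* Matrix (Fin 4) (Fin 4) ℚ).toMonoidHom

theorem map_inj {A B : M4} (h : (Int.castRingHom ℚ).mapMatrix A = (Int.castRingHom ℚ).mapMatrix B) :
    A = B := by
  ext i j
  have := congrFun (congrFun h i) j
  simpa using this

theorem io_inj : Function.Injective io := by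
  intro a b h
  apply Units.ext
  exact map_inj (congrArg Units.val h)

theorem relIndex_up {L R W W' : M4} {p : ℕ} {c d : ℤ} (hp : 0 < p) (hc : 0 < c) (hd : 0 < d)
    (hW : W * W' = (p : ℤ) • (1 : M4)) (h : c • L = d • (W.transpose * R * W))
    (H : ∀ g ∈ OG L, ∃ h ∈ OG R, (h : M4) * W = W * (g : M4)) (hr : Reflective L) :
    Reflective R := by
  have hpZ : (0 : ℤ) < p := by exact_mod_cast hp
  have : NeZero p := ⟨hp.ne'⟩
  -- the rational matrix of `W`
  have hWu : IsUnit ((Int.castRingHom ℚ).mapMatrix W) := by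
    rw [Matrix.isUnit_iff_isUnit_det, ← RingHom.map_det]
    refine isUnit_iff_ne_zero.2 ?_
    simpa using det_ne hpZ.ne' hW
  obtain ⟨w, hw⟩ := hWu
  let ψ : M4ˣ →* (Matrix (Fin 4) (Fin 4) ℚ)ˣ := (MulAut.conj w).toMonoidHom.comp io
  have hψ_inj : Function.Injective ψ := (MulAut.conj w).injective.comp io_inj
  have hψ : ∀ g h' : M4ˣ, (h' : M4) * W = W * (g : M4) → ψ g = io h' := by
    intro g h' hh
    show w * io g * w⁻¹ = io h'
    rw [mul_inv_eq_iff_eq_mul]
    apply Units.ext
    rw [Units.val_mul, Units.val_mul, hw]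
    show (Int.castRingHom ℚ).mapMatrix W * (Int.castRingHom ℚ).mapMatrix (g : M4) =
      (Int.castRingHom ℚ).mapMatrix (h' : M4) * (Int.castRingHom ℚ).mapMatrix W
    rw [← map_mul, ← map_mul, hh]
  -- reduction modulo `p`
  let f : M4ˣ →* (Matrix (Fin 4) (Fin 4) (ZMod p))ˣ :=
    Units.map ((Int.castRingHom (ZMod p)).mapMatrix :
      M4 →+* Matrix (Fin 4) (Fin 4) (ZMod p)).toMonoidHom
  have hf : f.ker.relIndex (OG R) ≠ 0 := by
    rw [Subgroup.relIndex_ker]
    exact Nat.card_pos.ne'
  have hf2 : ((f.ker ⊓ OG R).map io).relIndex ((OG R).map io) ≠ 0 := by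
    rw [Subgroup.relIndex_map_map_of_injective _ _ io_inj, Subgroup.inf_relIndex_right]
    exact hf
  have hle : (f.ker ⊓ OG R).map io ≤ (OG L).map ψ := by
    rintro _ ⟨h', hh', rfl⟩
    obtain ⟨hk, hO⟩ := Subgroup.mem_inf.1 hh'
    have h1 : ((Int.castRingHom (ZMod p)).mapMatrix (h' : M4)) = 1 :=
      congrArg Units.val (MonoidHom.mem_ker.1 hk)
    have h2 : ∀ i j, (p : ℤ) ∣ (h' : M4) i j - (1 : M4) i j := by
      intro i j
      have h3 : (((h' : M4) i j : ℤ) : ZMod p) = (((1 : M4) i j : ℤ) : ZMod p) := by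
        have h4 := congrFun (congrFun h1 i) j
        rw [← map_one ((Int.castRingHom (ZMod p)).mapMatrix :
          M4 →+* Matrix (Fin 4) (Fin 4) (ZMod p))] at h4
        exact h4
      exact (ZMod.intCast_eq_intCast_iff_dvd_sub _ _ _).1 h3.symm
    choose N hN using h2
    have hN2 : (h' : M4) = 1 + (p : ℤ) • (Matrix.of N) := by
      ext i j
      have := hN i j
      simp only [Matrix.add_apply, Matrix.smul_apply, Matrix.of_apply, smul_eq_mul]
      linarith
    have hV : (h' : M4) * W = W * (1 + W' * Matrix.of N * W) := by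
      rw [hN2, Matrix.add_mul, Matrix.mul_add, Matrix.one_mul, Matrix.mul_one,
        ← Matrix.mul_assoc, ← Matrix.mul_assoc, hW, Matrix.smul_mul, Matrix.smul_mul,
        Matrix.smul_mul, Matrix.one_mul]
    obtain ⟨g, hg, hgV⟩ := og_down hpZ hc hW h hO hV
    exact ⟨g, hg, hψ g h' (by rw [hV, hgV])⟩
  have h3 : ((OG L).map ψ).relIndex ((OG R).map io) ≠ 0 := fun h0 =>
    hf2 (Subgroup.relIndex_eq_zero_of_le_left hle h0)
  have h4 : ((Or L).map ψ).relIndex ((OG L).map ψ) ≠ 0 := by
    rw [Subgroup.relIndex_map_map_of_injective _ _ hψ_inj]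
    exact hr
  have h5 := Subgroup.relIndex_ne_zero_trans h4 h3
  have h6 : (Or L).map ψ ≤ (Or R).map io := by
    rw [Or, MonoidHom.map_closure, Subgroup.closure_le]
    rintro _ ⟨g, ⟨hg, hgr⟩, rfl⟩
    obtain ⟨h', hh', hhW⟩ := H g hg
    exact ⟨h', Subgroup.subset_closure ⟨hh', refl_up hpZ hc hd hW h hgr hhW⟩, (hψ g h' hhW).symm⟩
  have h7 : ((Or R).map io).relIndex ((OG R).map io) ≠ 0 := fun h0 =>
    h5 (Subgroup.relIndex_eq_zero_of_le_left h6 h0)
  rw [Subgroup.relIndex_map_map_of_injective _ _ io_inj] at h7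
  exact h7

theorem transStmt : TransStmt := by
  intro L R W W' p c d hp hc hd hW h hL H
  have hpZ : (0 : ℤ) < p := by exact_mod_cast hp
  have hcZ : (0 : ℤ) < c := by exact_mod_cast hc
  have hdZ : (0 : ℤ) < d := by exact_mod_cast hd
  exact ⟨lat_up hpZ hcZ hdZ hW h hL, relIndex_up hp hcZ hdZ hW h H⟩

end Pool.Agent.Refl.H93
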