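import Pool.Agent.Helper23_Refl.StmtC2
import Pool.Agent.Helper93_Refl.Trans

/-!
# LINA: the integer linear algebra of the kernel functions
-/

namespace Pool.Agent.Refl.H93

open Matrix Pool.Agent.Refl

theorem fc_eq {α : Type} (n : ℕ) (f : ℕ → α) : K.fc n f = f n := by cases n <;> rfl

theorem ands_iff (a b : Bool) : K.ands a b = true ↔ a = true ∧ b = true := by
  cases a <;> cases b <;> simp [K.ands]

theorem orb_iff (a b : Bool) : K.orb a b = true ↔ a = true ∨ b = true := by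
  cases a <;> cases b <;> simp [K.orb]

theorem notb_iff (a : Bool) : K.notb a = true ↔ a = false := by
  cases a <;> simp [K.notb]

theorem posI_iff (x : ℤ) : K.posI x = true ↔ 0 < x := by
  rw [K.posI, Int.blt'_eq_true]

theorem negb_iff (x : ℤ) : K.negb x = true ↔ x < 0 := by
  rw [K.negb, Int.blt'_eq_true]

theorem dotI_eq (u v : K.I4) :
    K.dotI u v = u.x * v.x + u.y * v.y + (u.z * v.z + u.w * v.w) := rfl

theorem mulI_eq (A : K.I10) (v : K.I4) : K.mulI A v = ⟨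
    A.a00 * v.x + A.a01 * v.y + (A.a02 * v.z + A.a03 * v.w),
    A.a01 * v.x + A.a11 * v.y + (A.a12 * v.z + A.a13 * v.w),
    A.a02 * v.x + A.a12 * v.y + (A.a22 * v.z + A.a23 * v.w),
    A.a03 * v.x + A.a13 * v.y + (A.a23 * v.z + A.a33 * v.w)⟩ := rfl

theorem dotI_vI (u v : K.I4) : K.dotI u v = vI u ⬝ᵥ vI v := by
  rw [dotI_eq]
  simp [vI, dotProduct, Fin.sum_univ_four]
  ring

theorem mulI_vI (A : K.I10) (v : K.I4) : vI (K.mulI A v) = (matI A).mulVec (vI v) := by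
  rw [mulI_eq]
  ext i
  fin_cases i <;> simp [vI, matI, Matrix.mulVec, dotProduct, Fin.sum_univ_four] <;> ring

theorem dotI_mulI (A : K.I10) (u v : K.I4) : K.dotI u (K.mulI A v) = bz (matI A) (vI u) (vI v) := by
  rw [dotI_vI, mulI_vI, bz_eq]

theorem det4_eq (a b c d : K.I4) : K.det4 a b c d =
    (a.x * b.y - a.y * b.x) * (c.z * d.w - c.w * d.z) +
      (a.x * b.w - a.w * b.x) * (c.y * d.z - c.z * d.y) -
      (a.x * b.z - a.z * b.x) * (c.y * d.w - c.w * d.y) +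
    ((a.y * b.z - a.z * b.y) * (c.x * d.w - c.w * d.x) +
      (a.z * b.w - a.w * b.z) * (c.x * d.y - c.y * d.x) -
      (a.y * b.w - a.w * b.y) * (c.x * d.z - c.z * d.x)) := rfl

theorem det4_vI (a b c d : K.I4) : K.det4 a b c d = d4 (vI a) (vI b) (vI c) (vI d) := by
  rw [det4_eq, d4]
  simp [vI, Matrix.det_succ_row_zero, Fin.sum_univ_succ, Fin.succAbove]
  ring

theorem detA_eq (A : K.I10) : K.detA A = (matI A).det := by
  have h : K.detA A = K.det4 ⟨A.a00, A.a01, A.a02, A.a03⟩ ⟨A.a01, A.a11, A.a12, A.a13⟩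
    ⟨A.a02, A.a12, A.a22, A.a23⟩ ⟨A.a03, A.a13, A.a23, A.a33⟩ := rfl
  rw [h, det4_vI]
  rfl

theorem crs_dot (u v w x : K.I4) : K.dotI (K.crs u v w) x = -K.det4 u v w x := by
  have h : K.crs u v w = ⟨
    u.y * (v.z * w.w - v.w * w.z) - u.z * (v.y * w.w - v.w * w.y) + u.w * (v.y * w.z - v.z * w.y),
    -(u.x * (v.z * w.w - v.w * w.z) - u.z * (v.x * w.w - v.w * w.x) +
      u.w * (v.x * w.z - v.z * w.x)),
    u.x * (v.y * w.w - v.w * w.y) - u.y * (v.x * w.w - v.w * w.x) + u.w * (v.x * w.y - v.y * w.x),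
    -(u.x * (v.y * w.z - v.z * w.y) - u.y * (v.x * w.z - v.z * w.x) +
      u.z * (v.x * w.y - v.y * w.x))⟩ := rfl
  rw [dotI_eq, det4_eq, h]
  ring

theorem eqI_iff (u v : K.I4) : K.eqI u v = true ↔ vI u = vI v := by
  rw [K.eqI, ands_iff, ands_iff, ands_iff, Int.beq'_eq, Int.beq'_eq, Int.beq'_eq, Int.beq'_eq]
  constructor
  · rintro ⟨⟨h1, h2⟩, h3, h4⟩
    rw [vI, vI, h1, h2, h3, h4]
  · intro h
    exact ⟨⟨congrFun h 0, congrFun h 1⟩, congrFun h 2, congrFun h 3⟩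

theorem gcdI_eq (v : K.I4) : K.gcdI v = 1 ↔ Prim4 (vI v) := by
  have hg : K.gcdI v = Nat.gcd (Nat.gcd v.x.natAbs v.y.natAbs) (Nat.gcd v.z.natAbs v.w.natAbs) := rfl
  have hall : ∀ d : ℤ, (∀ i, d ∣ vI v i) ↔ d.natAbs ∣ K.gcdI v := by
    intro d
    rw [hg, Nat.dvd_gcd_iff, Nat.dvd_gcd_iff, Nat.dvd_gcd_iff, Int.natAbs_dvd_natAbs,
      Int.natAbs_dvd_natAbs, Int.natAbs_dvd_natAbs, Int.natAbs_dvd_natAbs]
    constructor
    · intro h
      exact ⟨⟨h 0, h 1⟩, h 2, h 3⟩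
    · rintro ⟨⟨h1, h2⟩, h3, h4⟩ i
      fin_cases i
      · exact h1
      · exact h2
      · exact h3
      · exact h4
  constructor
  · intro h d hd
    have h1 := (hall d).1 hd
    rw [h, Nat.dvd_one] at h1
    exact Int.isUnit_iff_natAbs_eq.2 h1
  · intro h
    have h1 := h (K.gcdI v) ((hall _).2 (by simp))
    simpa using Int.isUnit_iff_natAbs_eq.1 h1

theorem dvdI_iff (n : ℕ) (x : ℤ) : K.dvdI n x = true ↔ (n : ℤ) ∣ x := by
  have h : K.dvdI n x = Nat.beq (x.natAbs % n) 0 := rfl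
  rw [h, Nat.beq_eq, ← Nat.dvd_iff_mod_eq_zero]
  exact Int.natCast_dvd.symm

theorem matI_symm (A : K.I10) : (matI A).transpose = matI A := by
  ext i j
  fin_cases i <;> fin_cases j <;> rfl

theorem bz_single (A : K.I10) (v : Z4) (i : Fin 4) :
    bz (matI A) v (Pi.single i 1) = (matI A).mulVec v i := by
  have h : bz (matI A) v (Pi.single i 1) = bz (matI A) (Pi.single i 1) v := by
    rw [bz_eq, bz_eq, Matrix.dotProduct_mulVec, ← Matrix.mulVec_transpose, matI_symm,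
      dotProduct_comm]
  rw [h, bz_eq, single_one_dotProduct]

theorem rootI_iff (A : K.I10) (n : ℕ) (v : K.I4) : K.rootI A n v = true ↔
    (∀ x : Z4, (n : ℤ) ∣ 2 * bz (matI A) (vI v) x) ∧ Prim4 (vI v) := by
  have h : K.rootI A n v = K.ands (K.ands
    (K.ands (K.dvdI n (2 * (K.mulI A v).x)) (K.dvdI n (2 * (K.mulI A v).y)))
    (K.ands (K.dvdI n (2 * (K.mulI A v).z)) (K.dvdI n (2 * (K.mulI A v).w))))
    (Nat.beq (K.gcdI v) 1) := rfl
  rw [h, ands_iff, ands_iff, ands_iff, ands_iff, dvdI_iff, dvdI_iff, dvdI_iff, dvdI_iff,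
    Nat.beq_eq, gcdI_eq]
  refine and_congr_left fun _ => ?_
  have hx : (K.mulI A v).x = (matI A).mulVec (vI v) 0 := congrFun (mulI_vI A v) 0
  have hy : (K.mulI A v).y = (matI A).mulVec (vI v) 1 := congrFun (mulI_vI A v) 1
  have hz : (K.mulI A v).z = (matI A).mulVec (vI v) 2 := congrFun (mulI_vI A v) 2
  have hw : (K.mulI A v).w = (matI A).mulVec (vI v) 3 := congrFun (mulI_vI A v) 3
  rw [hx, hy, hz, hw]
  constructor
  · rintro ⟨⟨h1, h2⟩, h3, h4⟩ x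
    have h5 : bz (matI A) (vI v) x = ∑ i, (matI A).mulVec (vI v) i * x i := by
      rw [bz_eq, Matrix.dotProduct_mulVec, ← Matrix.mulVec_transpose, matI_symm]
      rfl
    rw [h5, Finset.mul_sum]
    refine Finset.dvd_sum fun i _ => ?_
    rw [← mul_assoc]
    refine Dvd.dvd.mul_right ?_ _
    fin_cases i
    · exact h1
    · exact h2
    · exact h3
    · exact h4
  · intro h1
    have h2 : ∀ i, (n : ℤ) ∣ 2 * (matI A).mulVec (vI v) i := fun i => by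
      rw [← bz_single]
      exact h1 _
    exact ⟨⟨h2 0, h2 1⟩, h2 2, h2 3⟩

theorem bz_commA (A : K.I10) (x y : Z4) : bz (matI A) x y = bz (matI A) y x := by
  rw [bz_eq, bz_eq, Matrix.dotProduct_mulVec, ← Matrix.mulVec_transpose, matI_symm,
    dotProduct_comm]

theorem isR_iff (A : K.I10) (v : K.I4) : K.isR A v = true ↔ IsRoot (matI A) (vI v) := by
  have h : K.isR A v = K.ands (K.posI (K.dotI v (K.mulI A v)))
    (K.rootI A (K.dotI v (K.mulI A v)).natAbs v) := rfl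
  rw [h, ands_iff, posI_iff, dotI_mulI, rootI_iff]
  constructor
  · rintro ⟨h1, h2, h3⟩
    refine ⟨h1, fun x => ?_, h3⟩
    have h4 := h2 x
    rw [Int.natCast_natAbs, abs_of_pos h1] at h4
    rw [bz_commA A x]
    exact h4
  · intro h1
    refine ⟨h1.pos, fun x => ?_, h1.prim⟩
    rw [Int.natCast_natAbs, abs_of_pos h1.pos, bz_commA A (vI v) x]
    exact h1.dvd x

theorem prm_iff (A : K.I10) : K.prm A = true ↔ PrimG (matI A) := by
  have h : K.prm A = Nat.beq (Nat.gcd (Nat.gcd (K.gcdI ⟨A.a00, A.a01, A.a02, A.a03⟩)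
    (K.gcdI ⟨A.a11, A.a12, A.a13, A.a22⟩)) (Nat.gcd A.a23.natAbs A.a33.natAbs)) 1 := rfl
  have h1 : ∀ d : ℤ, (∀ i j, d ∣ matI A i j) ↔ d.natAbs ∣ Nat.gcd (Nat.gcd
      (K.gcdI ⟨A.a00, A.a01, A.a02, A.a03⟩)
      (K.gcdI ⟨A.a11, A.a12, A.a13, A.a22⟩)) (Nat.gcd A.a23.natAbs A.a33.natAbs) := by
    intro d
    show (∀ i j, d ∣ matI A i j) ↔ d.natAbs ∣ Nat.gcd (Nat.gcd
      (Nat.gcd (Nat.gcd A.a00.natAbs A.a01.natAbs) (Nat.gcd A.a02.natAbs A.a03.natAbs))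
      (Nat.gcd (Nat.gcd A.a11.natAbs A.a12.natAbs) (Nat.gcd A.a13.natAbs A.a22.natAbs)))
      (Nat.gcd A.a23.natAbs A.a33.natAbs)
    simp only [Nat.dvd_gcd_iff, Int.natAbs_dvd_natAbs]
    constructor
    · intro h
      exact ⟨⟨⟨⟨h 0 0, h 0 1⟩, h 0 2, h 0 3⟩, ⟨h 1 1, h 1 2⟩, h 1 3, h 2 2⟩, h 2 3, h 3 3⟩
    · rintro ⟨⟨⟨⟨h00, h01⟩, h02, h03⟩, ⟨h11, h12⟩, h13, h22⟩, h23, h33⟩ i j
      fin_cases i <;> fin_cases j <;> assumption
  rw [h, Nat.beq_eq]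
  constructor
  · intro h2 d hd
    have h3 := (h1 d).1 hd
    rw [h2, Nat.dvd_one] at h3
    exact Int.isUnit_iff_natAbs_eq.2 h3
  · intro h2
    have h3 := h2 _ ((h1 (Nat.gcd (Nat.gcd (K.gcdI ⟨A.a00, A.a01, A.a02, A.a03⟩)
      (K.gcdI ⟨A.a11, A.a12, A.a13, A.a22⟩)) (Nat.gcd A.a23.natAbs A.a33.natAbs) : ℕ)).2
      (by rw [Int.natAbs_natCast]))
    simpa using Int.isUnit_iff_natAbs_eq.1 h3

theorem linA : LinAStmt :=
  ⟨dotI_vI, mulI_vI, dotI_mulI, det4_vI, detA_eq, crs_dot, eqI_iff,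
    fun A n v _ => rootI_iff A n v, isR_iff, prm_iff⟩

end Pool.Agent.Refl.H93
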