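import Pool.Agent.Helper93_Refl.EnuTools
import Pool.Agent.Helper48_Refl.EnuBase

/-!
# ENUII: enumeration of the configurations of case II
-/

namespace Pool.Agent.Refl.H93

open Matrix Pool.Agent.Refl

theorem brec_true {α : Type} (x y : α) {b : Bool} (h : b = true) :
    (Bool.rec (motive := fun _ => α) x y b) = y := by subst h; rfl

/-- the function computes `N45` -/
theorem n45II_eq (hSq : SqKStmt) {N13 N14 N34 N15 N35 N25 N45 T t : ℕ} (h13 : N13 < 4)
    (ht : t = Nat.sqrt (N13 * N14 * N34)) (hE : 4 < N13 + N14 + N34 + t)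
    (hT : T ^ 2 = pII N13 N14 N34 N15 N35 * N45)
    (hEq : (4 - (N13 : ℤ)) * N45 + T + cII N13 N14 N34 N15 N35 N25 = 0)
    (f : ℕ → K.Kt) (k : K.Kt) (l : List ℕ) :
    K.n45IIK N13 N14 N34 t N15 N35 N25 f k l = f N45 l := by
  unfold K.n45IIK
  have hSq' : ∀ n, K.sqK n = Nat.sqrt n := hSq
  have e135 : K.m3n N13 N35 N15 = N13 * N35 * N15 := rfl
  have eq4 : K.m4n N14 N34 N35 N15 = N14 * N34 * (N35 * N15) := rfl
  have e13 : K.m3n N13 N15 N34 = N13 * N15 * N34 := rfl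
  have e35 : K.m3n N35 N14 N13 = N35 * N14 * N13 := rfl
  have hdiv : ∀ a b : ℕ, Nat.div a b = a / b := fun _ _ => rfl
  simp only [fc_eq, hSq', e135, eq4, e13, e35, Nat.add_eq, Nat.mul_eq, Nat.sub_eq, hdiv]
  set t135 := Nat.sqrt (N13 * N35 * N15) with h135
  set q := Nat.sqrt (N14 * N34 * (N35 * N15)) with hq
  have hq' : Nat.sqrt (N14 * N34 * N35 * N15) = q := by rw [hq, mul_assoc (N14 * N34)]
  have hP : 16 * (N14 * N15) + 4 * (N13 * N15 * N34) + (16 * (N34 * N35) + 4 * (N35 * N14 * N13))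
      + (16 * (N15 * t) + 32 * q + (16 * (N14 * t135) + 16 * (N34 * t135) +
        (8 * (N13 * q) + 16 * (N35 * t)))) = pII N13 N14 N34 N15 N35 := by
    rw [pII, hq', ← h135, ← ht]
    ring
  rw [hP]
  set P := pII N13 N14 N34 N15 N35 with hPdef
  have hEE : ((N13 + N14 + N34 + t - 4 : ℕ) : ℤ) = N13 + N14 + N34 + t - 4 := by
    rw [Nat.cast_sub (by omega)]
    push_cast
    ring
  set E := N13 + N14 + N34 + t - 4 with hEdef
  set C1 := N15 * N34 + N35 * N14 + N25 * E with hC1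
  set C2 := 4 * (N15 + N35 + (t135 + E)) + 2 * q with hC2
  have hcII : cII N13 N14 N34 N15 N35 N25 = (C2 : ℤ) - C1 := by
    rw [cII, hq', ← h135, ← ht, hC1, hC2]
    push_cast
    rw [hEE]
    ring
  rw [hcII] at hEq
  have h13' : ((4 - N13 : ℕ) : ℤ) = 4 - N13 := by
    rw [Nat.cast_sub (by omega)]
    rfl
  set g := 4 - N13 with hg
  have hgpos : 0 < g := by omega
  have hC : C1 = C2 + (g * N45 + T) := by
    have : (C1 : ℤ) = C2 + (g * N45 + T) := by
      rw [h13']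
      linarith
    exact_mod_cast this
  have hCC : C1 - C2 = g * N45 + T := by omega
  have hle : Nat.ble C2 C1 = true := Nat.ble_eq ▸ (by omega)
  rw [brec_true _ _ hle, hCC]
  have hx : P * P + 4 * g * (P * (g * N45 + T)) = (2 * g * T + P) * (2 * g * T + P) := by
    have hT' : T * T = P * N45 := by rw [← hT]; ring
    calc P * P + 4 * g * (P * (g * N45 + T))
        = P * P + 4 * g * (g * (P * N45) + P * T) := by ring
      _ = P * P + 4 * g * (g * (T * T) + P * T) := by rw [hT']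
      _ = _ := by ring
  rw [hx, Nat.sqrt_eq]
  have hd : 2 * g * T + P - P = 2 * g * T := by omega
  rw [hd]
  have hT1 : 2 * g * T / (2 * g) = T := Nat.mul_div_cancel_left _ (by omega)
  rw [hT1]
  have hy : g * N45 + T - T = g * N45 := by omega
  rw [hy]
  have hN : g * N45 / g = N45 := Nat.mul_div_cancel_left _ hgpos
  rw [hN]
  refine brec_true _ _ ?_
  rw [ands_iff, ands_iff, ands_iff, ands_iff, Nat.beq_eq, Nat.beq_eq, Nat.beq_eq, Nat.beq_eq,
    Nat.ble_eq]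
  refine ⟨⟨rfl, rfl⟩, by omega, by ring, ?_⟩
  rw [← hT]
  ring

theorem brec_or {α : Type} (x y : α) (b : Bool) :
    (Bool.rec (motive := fun _ => α) x y b) = x ∨ (Bool.rec (motive := fun _ => α) x y b) = y := by
  cases b
  · exact Or.inl rfl
  · exact Or.inr rfl

theorem n45II_pass (a1 a2 a3 a4 a5 a6 a7 : ℕ) {A : ℕ → K.Kt → K.Kt} (hA : ∀ N, Pass (A N)) :
    Pass (fun k => K.n45IIK a1 a2 a3 a4 a5 a6 a7 (fun N => A N k) k) := by
  intro k l h
  have h1 : K.n45IIK a1 a2 a3 a4 a5 a6 a7 (fun N => A N k) k l = k l ∨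
      ∃ N, K.n45IIK a1 a2 a3 a4 a5 a6 a7 (fun N => A N k) k l = A N k l := by
    unfold K.n45IIK
    simp only [fc_eq]
    rcases brec_or (k l) _ _ with h | h
    · exact Or.inl h
    · rw [h]
      rcases brec_or (k l) _ _ with h | h
      · exact Or.inl h
      · exact Or.inr ⟨_, h⟩
  rcases h1 with h1 | ⟨N, h1⟩
  · exact ⟨[], l, rfl, h1 ▸ h⟩
  · exact hA N k l (h1 ▸ h)

noncomputable def bE (N13 N14 N34 N15 N35 N25 N45 : ℕ) (k : K.Kt) : K.Kt :=
  K.ifb (K.ands (K.notb (Nat.beq N45 4)) (K.ands (K.sqs5 N13 N14 N34 N15 N35 N45)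
    (K.dpos 0 N13 0 N15 N25 N35)))
    (K.emit 2 [0, N13, 0, N14, 0, N34, N15, N25, N35, N45] k) k

noncomputable def b25 (N13 N14 N34 t N15 N35 N25 : ℕ) (k : K.Kt) : K.Kt :=
  K.ifb (K.notb (Nat.beq N25 4)) (K.n45IIK N13 N14 N34 t N15 N35 N25
    (fun N45 => bE N13 N14 N34 N15 N35 N25 N45 k) k) k

noncomputable def b35 (N13 N14 N34 t la mu N15 N35 : ℕ) (k : K.Kt) : K.Kt :=
  K.ifb (K.pdU N13 N15 N35) (fun l =>
    K.fc (Nat.succ (K.farK N13 0 N15 N35 la mu)) fun b =>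
      K.rng b (b25 N13 N14 N34 t N15 N35) k 0 l) k

noncomputable def b15 (N13 N14 N34 t la mu N15 : ℕ) (k : K.Kt) : K.Kt :=
  K.rng 4 (b35 N13 N14 N34 t la mu N15) k 0

noncomputable def b34 (N13 N14 N34 : ℕ) (k : K.Kt) : K.Kt := fun l =>
  K.fc (K.m3n N13 N14 N34) fun x => K.fc (K.sqK x) fun t => Bool.rec (k l)
    (K.fc (K.lamIIK N13 N14 N34) fun la => K.fc (K.muIIK N13 N14 N34) fun mu =>
      K.rng 4 (b15 N13 N14 N34 t la mu) k 0 l)
    (K.ands (K.ands (K.notb (Nat.beq N34 4)) (Nat.beq (Nat.mul t t) x))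
      (Nat.blt 4 (Nat.add (Nat.add (Nat.add N13 N14) N34) t)))

theorem enII_eq (N13 N14 : ℕ) (k : K.Kt) :
    K.enII N13 N14 k = K.rng (K.bIIK N13 N14 + 1) (b34 N13 N14) k 0 := by
  funext l
  show K.fc (Nat.succ (K.bIIK N13 N14)) (fun b => K.rng b (b34 N13 N14) k 0 l) = _
  rw [fc_eq]

theorem bE_pass (N13 N14 N34 N15 N35 N25 N45 : ℕ) : Pass (bE N13 N14 N34 N15 N35 N25 N45) :=
  ifb_pass (emit_pass _ _)

theorem b25_pass (N13 N14 N34 t N15 N35 N25 : ℕ) : Pass (b25 N13 N14 N34 t N15 N35 N25) :=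
  ifb_pass (n45II_pass _ _ _ _ _ _ _ fun N => bE_pass N13 N14 N34 N15 N35 N25 N)

theorem b35_eq (N13 N14 N34 t la mu N15 N35 : ℕ) (k : K.Kt) :
    b35 N13 N14 N34 t la mu N15 N35 k = K.ifb (K.pdU N13 N15 N35)
      (K.rng (K.farK N13 0 N15 N35 la mu + 1) (b25 N13 N14 N34 t N15 N35) k 0) k := by
  unfold b35
  simp only

theorem b35_pass (N13 N14 N34 t la mu N15 N35 : ℕ) : Pass (b35 N13 N14 N34 t la mu N15 N35) := by
  have h : b35 N13 N14 N34 t la mu N15 N35 = fun k => K.ifb (K.pdU N13 N15 N35)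
      (K.rng (K.farK N13 0 N15 N35 la mu + 1) (b25 N13 N14 N34 t N15 N35) k 0) k :=
    funext fun k => b35_eq _ _ _ _ _ _ _ _ k
  rw [h]
  exact ifb_pass (rng_pass (fun i => b25_pass _ _ _ _ _ _ i) 0)

theorem b15_pass (N13 N14 N34 t la mu N15 : ℕ) : Pass (b15 N13 N14 N34 t la mu N15) :=
  rng_pass (fun i => b35_pass _ _ _ _ _ _ _ i) 0

theorem b34_eq (N13 N14 N34 : ℕ) (k : K.Kt) (l : List ℕ) :
    b34 N13 N14 N34 k l = Bool.rec (motive := fun _ => Bool) (k l)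
      (K.rng 4 (b15 N13 N14 N34 (K.sqK (K.m3n N13 N14 N34)) (K.lamIIK N13 N14 N34)
        (K.muIIK N13 N14 N34)) k 0 l)
      (K.ands (K.ands (K.notb (Nat.beq N34 4)) (Nat.beq (Nat.mul (K.sqK (K.m3n N13 N14 N34))
        (K.sqK (K.m3n N13 N14 N34))) (K.m3n N13 N14 N34)))
        (Nat.blt 4 (Nat.add (Nat.add (Nat.add N13 N14) N34) (K.sqK (K.m3n N13 N14 N34))))) := by
  unfold b34
  simp only [fc_eq]

theorem b34_pass (N13 N14 N34 : ℕ) : Pass (b34 N13 N14 N34) := by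
  intro k l h
  rw [b34_eq] at h
  rcases brec_or (k l) _ _ with h1 | h1
  · exact ⟨[], l, rfl, h1 ▸ h⟩
  · rw [h1] at h
    exact rng_pass (fun i => b15_pass _ _ _ _ _ _ i) 0 k l h

theorem n45II_emits {tag : ℕ} {ns : List ℕ} (hSq : SqKStmt)
    {N13 N14 N34 N15 N35 N25 N45 T t : ℕ} (h13 : N13 < 4)
    (ht : t = Nat.sqrt (N13 * N14 * N34)) (hE : 4 < N13 + N14 + N34 + t)
    (hT : T ^ 2 = pII N13 N14 N34 N15 N35 * N45)
    (hEq : (4 - (N13 : ℤ)) * N45 + T + cII N13 N14 N34 N15 N35 N25 = 0)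
    {A : ℕ → K.Kt → K.Kt} (hA : Emits tag ns (A N45)) :
    Emits tag ns (fun k => K.n45IIK N13 N14 N34 t N15 N35 N25 (fun N => A N k) k) := by
  intro k l h
  have h' : K.n45IIK N13 N14 N34 t N15 N35 N25 (fun N => A N k) k l = true := h
  rw [n45II_eq hSq h13 ht hE hT hEq] at h'
  exact hA k l h'

/-- the enumeration reaches the configuration -/
theorem enII_emits (hSq : SqKStmt) (hK : KNumStmt) {N13 N14 N34 N15 N35 N25 N45 T : ℕ}
    (h13 : N13 < 4) (h34 : N34 ≤ bII N13 N14) (h344 : N34 ≠ 4)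
    (hsq : IsSquare (N13 * N14 * N34))
    (hE : 4 < N13 + N14 + N34 + Nat.sqrt (N13 * N14 * N34)) (h15 : N15 < 4) (h35 : N35 < 4)
    (hpd : K.pdU N13 N15 N35 = true)
    (h25 : N25 ≤ farBN N13 0 N15 N35 (lamII N13 N14 N34) (muII N13 N14 N34)) (h254 : N25 ≠ 4)
    (hT : T ^ 2 = pII N13 N14 N34 N15 N35 * N45)
    (hEq : (4 - (N13 : ℤ)) * N45 + T + cII N13 N14 N34 N15 N35 N25 = 0) (h454 : N45 ≠ 4)
    (hs5 : K.sqs5 N13 N14 N34 N15 N35 N45 = true) (hdp : K.dpos 0 N13 0 N15 N25 N35 = true) :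
    Emits 2 [0, N13, 0, N14, 0, N34, N15, N25, N35, N45] (fun k => K.enII N13 N14 k) := by
  have hSq' : ∀ n, K.sqK n = Nat.sqrt n := hSq
  have e0 : (fun k => K.enII N13 N14 k) =
      fun k => K.rng (K.bIIK N13 N14 + 1) (b34 N13 N14) k 0 := funext fun k => enII_eq N13 N14 k
  rw [e0]
  have hb : K.bIIK N13 N14 = bII N13 N14 := hK.2.2.2.2.2.2.2.1 N13 N14
  have hfar : ∀ a b c d l m, K.farK a b c d l m = farBN a b c d l m := hK.1
  have hlam : ∀ a b c, K.lamIIK a b c = lamII a b c := hK.2.2.2.2.1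
  have hmu : ∀ a b c, K.muIIK a b c = muII a b c := hK.2.2.2.1
  refine rng_emits (fun i => b34_pass _ _ i) (i := N34) 0 (Nat.zero_le _) (by omega) ?_
  have e3 : K.m3n N13 N14 N34 = N13 * N14 * N34 := rfl
  have hmm : Nat.sqrt (N13 * N14 * N34) * Nat.sqrt (N13 * N14 * N34) = N13 * N14 * N34 := by
    obtain ⟨r, hr⟩ := hsq
    rw [hr, Nat.sqrt_eq]
  intro k l h
  rw [b34_eq, brec_true] at h
  · refine rng_emits (fun i => b15_pass _ _ _ _ _ _ i) (i := N15) 0 (Nat.zero_le _) (by omega)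
      (ns := [0, N13, 0, N14, 0, N34, N15, N25, N35, N45]) (tag := 2) ?_ k l h
    refine rng_emits (fun i => b35_pass _ _ _ _ _ _ _ i) (i := N35) 0 (Nat.zero_le _) (by omega) ?_
    have e5 : b35 N13 N14 N34 (K.sqK (K.m3n N13 N14 N34)) (K.lamIIK N13 N14 N34)
        (K.muIIK N13 N14 N34) N15 N35 = fun k => K.ifb (K.pdU N13 N15 N35)
        (K.rng (K.farK N13 0 N15 N35 (K.lamIIK N13 N14 N34) (K.muIIK N13 N14 N34) + 1)
          (b25 N13 N14 N34 (K.sqK (K.m3n N13 N14 N34)) N15 N35) k 0) k :=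
      funext fun k => b35_eq _ _ _ _ _ _ _ _ k
    rw [e5]
    refine ifb_emits hpd ?_
    refine rng_emits (fun i => b25_pass _ _ _ _ _ _ i) (i := N25) 0 (Nat.zero_le _)
      (by rw [hfar, hlam, hmu]; omega) ?_
    refine ifb_emits (A := fun k => K.n45IIK N13 N14 N34 (K.sqK (K.m3n N13 N14 N34)) N15 N35 N25
      (fun N45 => bE N13 N14 N34 N15 N35 N25 N45 k) k) ?_ ?_
    · rw [H48.Enu.notb_beq]
      exact h254
    · refine n45II_emits hSq h13 (by rw [hSq', e3]) (by rw [hSq', e3]; exact hE) hT hEq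
        (A := fun N45 => bE N13 N14 N34 N15 N35 N25 N45) ?_
      refine ifb_emits ?_ (emit_emits 2 _)
      rw [ands_iff, ands_iff, H48.Enu.notb_beq]
      exact ⟨h454, hs5, hdp⟩
  · rw [ands_iff, ands_iff, H48.Enu.notb_beq, Nat.beq_eq, hSq', e3, H48.Enu.blt_true]
    exact ⟨⟨h344, hmm⟩, hE⟩

theorem nl_lt {code : ℕ} {i j : Fin 6} (h : i < j) : K.nl code i j = K.nlo code i j := by
  have hb : Nat.blt (i : ℕ) (j : ℕ) = true := H48.Enu.blt_true.2 h
  unfold K.nl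
  rw [hb]

theorem nl_gt {code : ℕ} {i j : Fin 6} (h : j < i) : K.nl code i j = K.nlo code j i := by
  have hb : Nat.blt (i : ℕ) (j : ℕ) = false := by
    rw [← Bool.not_eq_true, H48.Enu.blt_true]
    have : (j : ℕ) < i := h
    omega
  unfold K.nl
  rw [hb]

theorem enuII (hSq : SqKStmt) (hK : KNumStmt) (hNN : NNStmt) (hCyc : CycStmt)
    (hVP : VertexPosStmt) (hPosN : PosNStmt) (hNegN : NegNStmt) (hDS : DetSignStmt)
    (hN45 : N45IIStmt) : EnuIIStmt := by
  intro L hen G m f O i1 i2 i3 i4 i5 hL hC hA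
  have r1 := hC.root i1
  have r3 := hC.root i3
  have r4 := hC.root i4
  have r5 := hC.root i5
  obtain ⟨d12, d23, d13, -⟩ := hA.v3
  obtain ⟨-, d24, d14, -⟩ := hA.v4
  obtain ⟨-, d35, d15, -⟩ := hA.v5
  have d34 := hA.ne
  have d25 := hA.ne5.symm
  have p3 := H48.Enu.pos3 hL hC hVP hPosN hA.v3
  have p4 := H48.Enu.pos3 hL hC hVP hPosN hA.v4
  have p5 := H48.Enu.pos3 hL hC hVP hPosN hA.v5
  have hind := H48.Enu.indep4 hL hC hDS hA.v3 d14.symm d24.symm d34.symm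
  have hobt := H48.Enu.obt4 hC d12 d13 d14 d23 d24 d34
  have hind5 := H48.Enu.indep4 hL hC hDS hA.v3 d15.symm d25.symm d35.symm
  have hobt5 := H48.Enu.obt4 hC d12 d13 d15 d23 d25 d35
  have n12 := hA.n12
  have n23 := hA.n23
  have n24 := hA.n24
  have hE : 4 < nn G (f i1) (f i3) + nn G (f i1) (f i4) + nn G (f i3) (f i4) +
      Nat.sqrt (nn G (f i1) (f i3) * nn G (f i1) (f i4) * nn G (f i3) (f i4)) := by
    have h := hNegN G (f i1) (f i2) (f i3) (f i4) hL hobt hind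
    simp only [n12, n23, n24, zero_mul, mul_zero, Nat.sqrt_zero] at h
    have e : nn G (f i1) (f i3) * nn G (f i3) (f i4) * nn G (f i1) (f i4) =
      nn G (f i1) (f i3) * nn G (f i1) (f i4) * nn G (f i3) (f i4) := by ring
    rw [e] at h
    zify
    push_cast at h ⊢
    linarith
  have d45 : i4 ≠ i5 := by
    intro h
    rw [← h] at p5
    have e : nn G (f i1) (f i3) * nn G (f i3) (f i4) * nn G (f i1) (f i4) =
      nn G (f i1) (f i3) * nn G (f i1) (f i4) * nn G (f i3) (f i4) := by ring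
    rw [e] at p5
    omega
  have h34 : IsSquare (nn G (f i1) (f i3) * nn G (f i1) (f i4) * nn G (f i3) (f i4)) := by
    have h := (hNN G (f i1) (f i3) hL r1 r3).2.2.2 (f i4) r4
    have e : nn G (f i1) (f i3) * nn G (f i3) (f i4) * nn G (f i1) (f i4) =
      nn G (f i1) (f i3) * nn G (f i1) (f i4) * nn G (f i3) (f i4) := by ring
    rwa [e] at h
  have hobt' : Obt G [f i1, f i2, f i3, f i4, f i5] := by
    constructor
    · intro a ha
      simp only [List.mem_cons, List.not_mem_nil, or_false] at ha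
      rcases ha with rfl | rfl | rfl | rfl | rfl <;> exact hC.root _
    · simp only [List.pairwise_cons, List.mem_cons, List.not_mem_nil, or_false,
        forall_eq_or_imp, forall_eq, false_implies, implies_true, List.Pairwise.nil, and_true]
      exact ⟨⟨hC.obt _ _ d12, hC.obt _ _ d13, hC.obt _ _ d14, hC.obt _ _ d15⟩,
        ⟨hC.obt _ _ d23, hC.obt _ _ d24, hC.obt _ _ d25⟩, ⟨hC.obt _ _ d34, hC.obt _ _ d35⟩,
        hC.obt _ _ d45⟩
  obtain ⟨T, hT, hEq⟩ := hN45 G (f i1) (f i2) (f i3) (f i4) (f i5) hL hobt' n12 n23 n24 hind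
  obtain ⟨l, hl, hrun⟩ := hen (nn G (f i1) (f i3)) (nn G (f i1) (f i4)) (by omega) (by omega)
    hA.n134
  have hfar := hA.far13 i5 d25.symm hA.v5
  rw [n12] at hfar
  have hdp := H48.Enu.dpos4 hSq hNegN hL hobt5 hind5
  rw [n12, n23] at hdp
  obtain ⟨hsm, l1, l2, hll, hmem, -⟩ := enII_emits hSq hK (N13 := nn G (f i1) (f i3))
    (N14 := nn G (f i1) (f i4)) (N34 := nn G (f i3) (f i4)) (N15 := nn G (f i1) (f i5))
    (N35 := nn G (f i3) (f i5)) (N25 := nn G (f i2) (f i5)) (N45 := nn G (f i4) (f i5))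
    (by omega) hA.b34 (H59.nn_ne_four hC hL hNN d34) h34 hE (by omega) (by omega)
    (H48.Enu.pdU3 hSq hL hC hVP hPosN hA.v5) hfar (H59.nn_ne_four hC hL hNN d25) hT hEq
    (H59.nn_ne_four hC hL hNN d45) (by
      unfold K.sqs5
      have q1 := H48.Enu.isq4 hSq hCyc hL r1 r3 r4 r5
      have q2 := H48.Enu.isq4 hSq hCyc hL r1 r3 r5 r4
      have q3 := H48.Enu.isq4 hSq hCyc hL r1 r4 r3 r5
      rw [H59.nn_symm hL.symm (f i5) (f i4)] at q2
      rw [H59.nn_symm hL.symm (f i4) (f i3)] at q3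
      simp only [ands_iff]
      exact ⟨⟨H48.Enu.isq3 hSq hNN hL r1 r3 r5, H48.Enu.isq3 hSq hNN hL r1 r4 r5,
        H48.Enu.isq3 hSq hNN hL r3 r4 r5⟩, q1, q2, q3⟩) hdp K.nilB l hrun
  refine ⟨_, hl (hll ▸ List.mem_append_left _ hmem), ![i1, i2, i3, i4, i5, i5], ?_⟩
  unfold ConfX
  rw [H48.Enu.code_mod (by norm_num), H48.Enu.code_div (by norm_num)]
  have hg := fun i => H48.Enu.pk_get i _ hsm
  have hlt : ∀ i j : Fin 6, (i : ℕ) < 5 → (j : ℕ) < 5 → i < j →
      (![i1, i2, i3, i4, i5, i5] : Fin 6 → Fin m) i ≠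
        (![i1, i2, i3, i4, i5, i5] : Fin 6 → Fin m) j ∧
      nn G (f ((![i1, i2, i3, i4, i5, i5] : Fin 6 → Fin m) i))
        (f ((![i1, i2, i3, i4, i5, i5] : Fin 6 → Fin m) j)) =
        K.nlo (K.pk [0, nn G (f i1) (f i3), 0, nn G (f i1) (f i4), 0, nn G (f i3) (f i4),
          nn G (f i1) (f i5), nn G (f i2) (f i5), nn G (f i3) (f i5), nn G (f i4) (f i5)])
          i j := by
    intro i j hi hj hij
    fin_cases i <;> fin_cases j <;> first
      | exact absurd hij (by decide)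
      | exact absurd hi (by decide)
      | exact absurd hj (by decide)
      | exact ⟨d12, n12.trans (hg 0).symm⟩
      | exact ⟨d13, (hg 1).symm⟩
      | exact ⟨d23, n23.trans (hg 2).symm⟩
      | exact ⟨d14, (hg 3).symm⟩
      | exact ⟨d24, n24.trans (hg 4).symm⟩
      | exact ⟨d34, (hg 5).symm⟩
      | exact ⟨d15, (hg 6).symm⟩
      | exact ⟨d25, (hg 7).symm⟩
      | exact ⟨d35, (hg 8).symm⟩
      | exact ⟨d45, (hg 9).symm⟩
  have hn5 : K.sel 2 4 5 5 6 = 5 := rfl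
  rw [hn5]
  constructor
  · norm_num
  · norm_num
  · intro h; exact absurd h (by decide)
  · intro i j hi hj hij
    rcases lt_or_gt_of_ne hij with h | h
    · exact (hlt i j hi hj h).1
    · exact (hlt j i hj hi h).1.symm
  · intro i j hi hj hij
    rcases lt_or_gt_of_ne hij with h | h
    · rw [(hlt i j hi hj h).2, nl_lt h]
    · rw [H59.nn_symm hL.symm, (hlt j i hj hi h).2, nl_gt h]
  · exact hA.v3
  · exact hA.v4
  · exact fun _ => hA.v5
  · intro h; exact absurd h (by decide)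
  · intro _
    have e := hK.2.2.2.2.1 (nn G (f i1) (f i3)) (nn G (f i1) (f i4)) (nn G (f i3) (f i4))
    have e1 : K.nl (K.pk [0, nn G (f i1) (f i3), 0, nn G (f i1) (f i4), 0, nn G (f i3) (f i4),
          nn G (f i1) (f i5), nn G (f i2) (f i5), nn G (f i3) (f i5), nn G (f i4) (f i5)]) 0 2 =
        nn G (f i1) (f i3) := hg 1
    have e2 : K.nl (K.pk [0, nn G (f i1) (f i3), 0, nn G (f i1) (f i4), 0, nn G (f i3) (f i4),
          nn G (f i1) (f i5), nn G (f i2) (f i5), nn G (f i3) (f i5), nn G (f i4) (f i5)]) 0 3 =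
        nn G (f i1) (f i4) := hg 3
    have e3 : K.nl (K.pk [0, nn G (f i1) (f i3), 0, nn G (f i1) (f i4), 0, nn G (f i3) (f i4),
          nn G (f i1) (f i5), nn G (f i2) (f i5), nn G (f i3) (f i5), nn G (f i4) (f i5)]) 2 3 =
        nn G (f i3) (f i4) := hg 5
    have e4 : K.farL 2 (K.pk [0, nn G (f i1) (f i3), 0, nn G (f i1) (f i4), 0,
        nn G (f i3) (f i4), nn G (f i1) (f i5), nn G (f i2) (f i5), nn G (f i3) (f i5),
        nn G (f i4) (f i5)]) 0 =
        lamII (nn G (f i1) (f i3)) (nn G (f i1) (f i4)) (nn G (f i3) (f i4)) := by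
      rw [← e]
      unfold K.farL
      rw [e1, e2, e3]
      rfl
    rw [e4]
    exact hA.far14
  · intro _ h; exact absurd rfl h
  · intro h; exact absurd h (by decide)

end Pool.Agent.Refl.H93
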