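import Pool.Agent.Helper23_Refl.StmtC3

/-!
# ENUSUM: the three enumerations together
-/

namespace Pool.Agent.Refl.H93

open Matrix Pool.Agent.Refl

theorem enusum (hGeo : GeoStmt) (hA : EnuAStmt) (hI : EnuIStmt) (hII : EnuIIStmt) : EnuStmt := by
  intro L h1 h2 h3 G m f O hL hC
  rcases hGeo G m f O hL hC with ⟨i1, i2, i3, i4, h⟩ | ⟨i1, i2, i3, i4, i5, h⟩ |
    ⟨i1, i2, i3, i4, i5, h⟩
  · exact hA L h1 G m f O i1 i2 i3 i4 hL hC h
  · exact hI L h2 G m f O i1 i2 i3 i4 i5 hL hC h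
  · exact hII L h3 G m f O i1 i2 i3 i4 i5 hL hC h

end Pool.Agent.Refl.H93
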