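import Pool.Agent.Helper93_Refl.Trans

/-!
# D3: similarity
-/

namespace Pool.Agent.Refl.H93

open Matrix Pool.Agent.Refl

/-- gcd of the entries -/
def gcdM (G : M4) : ℤ :=
  (Finset.univ : Finset (Fin 4 × Fin 4)).gcd fun ij => G ij.1 ij.2

theorem simStmt (hT : TransStmt) : SimStmt := by
  intro A hA hcl G hG
  constructor
  · intro hr
    -- the gcd of the entries
    have hdvd : ∀ i j, gcdM G ∣ G i j := fun i j =>
      Finset.gcd_dvd (f := fun ij : Fin 4 × Fin 4 => G ij.1 ij.2) (Finset.mem_univ (i, j))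
    have hne : gcdM G ≠ 0 := by
      intro h0
      have hG0 : ∀ i j, G i j = 0 := fun i j => by
        have := hdvd i j
        rw [h0] at this
        exact zero_dvd_iff.1 this
      have := hG.anis (fun _ => 1) (by simp [bz, hG0])
      have := congrFun this 0
      simp at this
    set c : ℕ := (gcdM G).natAbs with hc
    have hc0 : 0 < c := Int.natAbs_pos.2 hne
    have hcd : ∀ i j, (c : ℤ) ∣ G i j := fun i j => Int.natAbs_dvd.2 (hdvd i j)
    choose N hN using hcd
    set G0 : M4 := Matrix.of N with hG0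
    have hGG : G = (c : ℤ) • G0 := by
      ext i j
      rw [Matrix.smul_apply, smul_eq_mul, hG0, Matrix.of_apply]
      exact hN i j
    have hprim : PrimG G0 := by
      intro d hd
      have h1 : (c : ℤ) * d ∣ gcdM G := by
        refine Finset.dvd_gcd ?_
        rintro ⟨i, j⟩ _
        show (c : ℤ) * d ∣ G i j
        rw [hN i j]
        exact mul_dvd_mul_left _ (hd i j)
      have h2 : (c : ℤ) * d ∣ (c : ℤ) * 1 := by
        rw [mul_one]
        exact Int.dvd_natAbs.2 h1
      have h3 := (mul_dvd_mul_iff_left (by exact_mod_cast hc0.ne' : (c : ℤ) ≠ 0)).1 h2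
      exact isUnit_of_dvd_one h3
    obtain ⟨hL0, hR0⟩ := hT G G0 1 1 1 1 c one_pos one_pos hc0 (by simp)
      (by simp [hGG]) hG (by
        intro g hg
        refine ⟨g, ?_, by simp⟩
        have h1 : (g : M4).transpose * G * (g : M4) = G := hg
        show (g : M4).transpose * G0 * (g : M4) = G0
        apply cancel_smulM (by exact_mod_cast hc0.ne' : (c : ℤ) ≠ 0)
        rw [← hGG]
        conv_rhs => rw [← h1]
        rw [hGG]
        simp only [Matrix.mul_smul, Matrix.smul_mul])
    obtain ⟨T, hTA, U, hU⟩ := hcl G0 hL0 hprim (hR0 hr)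
    refine ⟨T, hTA, U, 1, c, one_pos, by exact_mod_cast hc0, ?_⟩
    rw [one_smul, hGG, ← hU]
    simp only [Matrix.mul_smul, Matrix.smul_mul]
  · rintro ⟨T, hTA, U, a, b, ha, hb, h⟩
    obtain ⟨hTL, -, hTR⟩ := hA T hTA
    obtain ⟨a', rfl⟩ := Int.eq_ofNat_of_zero_le ha.le
    obtain ⟨b', rfl⟩ := Int.eq_ofNat_of_zero_le hb.le
    have ha' : 0 < a' := by exact_mod_cast ha
    have hb' : 0 < b' := by exact_mod_cast hb
    refine (hT T G (U : M4) ((U⁻¹ : M4ˣ) : M4) 1 b' a' one_pos hb' ha' (by simp) h.symm hTL ?_).2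
      hTR
    intro g hg
    refine ⟨U * g * U⁻¹, ?_, by simp [Matrix.mul_assoc]⟩
    have hg' : (g : M4).transpose * T * (g : M4) = T := hg
    show ((U * g * U⁻¹ : M4ˣ) : M4).transpose * G * ((U * g * U⁻¹ : M4ˣ) : M4) = G
    have e1 : (U : M4) * ((U⁻¹ : M4ˣ) : M4) = 1 := by simp
    have e2 : ((U⁻¹ : M4ˣ) : M4).transpose * (U : M4).transpose = 1 := by
      rw [← Matrix.transpose_mul, e1, Matrix.transpose_one]
    apply cancel_smulM (by exact_mod_cast ha'.ne' : (a' : ℤ) ≠ 0)
    calc (a' : ℤ) • (((U * g * U⁻¹ : M4ˣ) : M4).transpose * G * ((U * g * U⁻¹ : M4ˣ) : M4))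
        = ((U⁻¹ : M4ˣ) : M4).transpose * ((g : M4).transpose *
            ((a' : ℤ) • ((U : M4).transpose * G * (U : M4))) * (g : M4)) *
            ((U⁻¹ : M4ˣ) : M4) := by
          simp only [Units.val_mul, Matrix.transpose_mul, Matrix.mul_smul, Matrix.smul_mul,
            Matrix.mul_assoc]
      _ = ((U⁻¹ : M4ˣ) : M4).transpose * ((b' : ℤ) • ((g : M4).transpose * T * (g : M4))) *
            ((U⁻¹ : M4ˣ) : M4) := by
          rw [h]
          simp only [Matrix.mul_smul, Matrix.smul_mul]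
      _ = ((U⁻¹ : M4ˣ) : M4).transpose * ((a' : ℤ) • ((U : M4).transpose * G * (U : M4))) *
            ((U⁻¹ : M4ˣ) : M4) := by
          rw [hg', h]
      _ = (a' : ℤ) • ((((U⁻¹ : M4ˣ) : M4).transpose * (U : M4).transpose) * G *
            ((U : M4) * ((U⁻¹ : M4ˣ) : M4))) := by
          simp only [Matrix.mul_smul, Matrix.smul_mul, Matrix.mul_assoc]
      _ = (a' : ℤ) • G := by rw [e1, e2]; simp

end Pool.Agent.Refl.H93
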