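import Pool.Agent.Helper23_Refl.StmtC2
import Pool.Agent.Helper93_Refl.Word

/-!
# TRF: transfer of a chamber to a similar lattice
-/

namespace Pool.Agent.Refl.H93

open Matrix Pool.Agent.Refl

theorem prim_of_mul {M : M4} {r : Z4} {M' : M4} (h : M' * M = 1) (hr : Prim4 r) :
    Prim4 (M.mulVec r) := by
  intro d hd
  apply hr d
  intro i
  have h1 : r = M'.mulVec (M.mulVec r) := by
    rw [Matrix.mulVec_mulVec, h, Matrix.one_mulVec]
  rw [h1]
  simp only [Matrix.mulVec, dotProduct] at hd ⊢
  exact Finset.dvd_sum fun j _ => (hd j).mul_left _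

theorem root_transfer {G R V V' : M4} {a b : ℤ} (ha : 0 < a) (hb : 0 < b) (hV : V' * V = 1)
    (hV' : V * V' = 1)
    (hbz : ∀ x y, a * bz G x y = b * bz R (V.mulVec x) (V.mulVec y)) {r : Z4}
    (hr : IsRoot G r) : IsRoot R (V.mulVec r) := by
  refine ⟨?_, ?_, prim_of_mul hV hr.prim⟩
  · have h1 := hbz r r
    have h2 : 0 < b * bz R (V.mulVec r) (V.mulVec r) := by
      rw [← h1]; exact mul_pos ha hr.pos
    exact pos_of_mul_pos_right h2 hb.le
  · intro x
    have hx : V.mulVec (V'.mulVec x) = x := by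
      rw [Matrix.mulVec_mulVec, hV', Matrix.one_mulVec]
    have h1 := hr.dvd (V'.mulVec x)
    have h2 := mul_dvd_mul_left a h1
    have h3 : a * (2 * bz G (V'.mulVec x) r) = b * (2 * bz R x (V.mulVec r)) := by
      have := hbz (V'.mulVec x) r
      rw [hx] at this
      linear_combination 2 * this
    rw [hbz r r, h3] at h2
    exact (mul_dvd_mul_iff_left hb.ne').1 h2

theorem nn_transfer {G R V : M4} {a b : ℤ} (ha : 0 < a) (hb : 0 < b)
    (hbz : ∀ x y, a * bz G x y = b * bz R (V.mulVec x) (V.mulVec y)) (x y : Z4) :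
    nn R (V.mulVec x) (V.mulVec y) = nn G x y := by
  have key : ∀ u v w z : Z4, (2 * bz R (V.mulVec u) (V.mulVec v)) / bz R (V.mulVec w) (V.mulVec z)
      = (2 * bz G u v) / bz G w z := by
    intro u v w z
    have h1 : (2 * bz G u v) / bz G w z = (a * (2 * bz G u v)) / (a * bz G w z) :=
      (Int.mul_ediv_mul_of_pos _ _ ha).symm
    have h2 : (2 * bz R (V.mulVec u) (V.mulVec v)) / bz R (V.mulVec w) (V.mulVec z) =
        (b * (2 * bz R (V.mulVec u) (V.mulVec v))) / (b * bz R (V.mulVec w) (V.mulVec z)) :=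
      (Int.mul_ediv_mul_of_pos _ _ hb).symm
    rw [h1, h2, ← hbz w z]
    congr 1
    have := hbz u v
    linear_combination -2 * this
  unfold nn
  rw [key, key]

theorem isV_transfer {G R V V' : M4} {a b : ℤ} (ha : 0 < a) (hb : 0 < b) (hV : V' * V = 1)
    (hbr : ∀ x y, (a : ℝ) * br G x y = b * br R (act V x) (act V y)) {m : ℕ} {f : Fin m → Z4}
    {i j k : Fin m} (h : IsV G f i j k) : IsV R (fun i => V.mulVec (f i)) i j k := by
  have haR : (0 : ℝ) < a := by exact_mod_cast ha
  have hbR : (0 : ℝ) < b := by exact_mod_cast hb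
  obtain ⟨hij, hjk, hik, x, hx0, hle, hi, hj, hk⟩ := h
  have h0 : ∀ i, br G x (up (f i)) = 0 → br R (act V x) (up (V.mulVec (f i))) = 0 := by
    intro i hi
    have h1 := hbr x (up (f i))
    rw [hi, mul_zero, ← H92.up_mulVec] at h1
    exact (mul_eq_zero.1 h1.symm).resolve_left hbR.ne'
  refine ⟨hij, hjk, hik, act V x, ?_, ?_, h0 i hi, h0 j hj, h0 k hk⟩
  · intro h1
    apply hx0
    have h2 : act V' (act V x) = x := by rw [← H92.act_mul, hV, H92.act_one]
    rw [← h2, h1]
    simp [act]
  · intro i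
    have h1 := hbr x (up (f i))
    rw [← H92.up_mulVec] at h1
    have h2 : (b : ℝ) * br R (act V x) (up (V.mulVec (f i))) ≤ 0 := by
      rw [← h1]
      exact mul_nonpos_of_nonneg_of_nonpos haR.le (hle i)
    exact nonpos_of_mul_nonpos_right h2 hbR

theorem cham_transfer {G R V V' : M4} {a b : ℤ} (ha : 0 < a) (hb : 0 < b) (hV : V' * V = 1)
    (hV' : V * V' = 1) (hbz : ∀ x y, a * bz G x y = b * bz R (V.mulVec x) (V.mulVec y))
    (hbz' : ∀ x y, b * bz R x y = a * bz G (V'.mulVec x) (V'.mulVec y))
    (hbr : ∀ x y, (a : ℝ) * br G x y = b * br R (act V x) (act V y)) {m : ℕ} {f : Fin m → Z4}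
    {O : R4} (h : Cham G m f O) : Cham R m (fun i => V.mulVec (f i)) (act V O) := by
  have haR : (0 : ℝ) < a := by exact_mod_cast ha
  have hbR : (0 : ℝ) < b := by exact_mod_cast hb
  have hback : ∀ x, act V (act V' x) = x := fun x => by rw [← H92.act_mul, hV', H92.act_one]
  have hneg : ∀ (x : R4) (r : Z4), br G x (up r) < 0 → br R (act V x) (up (V.mulVec r)) < 0 := by
    intro x r hx
    have h1 := hbr x (up r)
    rw [← H92.up_mulVec] at h1
    have h2 : (b : ℝ) * br R (act V x) (up (V.mulVec r)) < 0 := by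
      rw [← h1]
      exact mul_neg_of_pos_of_neg haR hx
    exact neg_of_mul_neg_right h2 hbR.le
  have hle : ∀ (x : R4) (r : Z4), br R (act V x) (up (V.mulVec r)) ≤ 0 → br G x (up r) ≤ 0 := by
    intro x r hx
    have h1 := hbr x (up r)
    rw [← H92.up_mulVec] at h1
    have h2 : (a : ℝ) * br G x (up r) ≤ 0 := by
      rw [h1]
      exact mul_nonpos_of_nonneg_of_nonpos hbR.le hx
    exact nonpos_of_mul_nonpos_right h2 haR
  constructor
  · exact fun i => root_transfer ha hb hV hV' hbz (h.root i)
  · intro i j hij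
    apply h.inj
    have h1 : V'.mulVec (V.mulVec (f i)) = V'.mulVec (V.mulVec (f j)) := congrArg _ hij
    rwa [Matrix.mulVec_mulVec, Matrix.mulVec_mulVec, hV, Matrix.one_mulVec,
      Matrix.one_mulVec] at h1
  · intro i j hij
    have h1 := h.obt i j hij
    have h2 : b * bz R (V.mulVec (f i)) (V.mulVec (f j)) ≤ 0 := by
      rw [← hbz]
      exact mul_nonpos_of_nonneg_of_nonpos ha.le h1
    exact nonpos_of_mul_nonpos_right h2 hb
  · have h1 := hbr O O
    have h2 : (b : ℝ) * br R (act V O) (act V O) < 0 := by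
      rw [← h1]
      exact mul_neg_of_pos_of_neg haR h.Oneg
    exact neg_of_mul_neg_right h2 hbR.le
  · exact fun i => hneg O (f i) (h.neg i)
  · obtain ⟨c, hc, hcx⟩ := h.cpt
    refine ⟨c * (b / a), mul_pos hc (div_pos hbR haR), fun x hx => ?_⟩
    have h1 : ∀ i, br G (act V' x) (up (f i)) ≤ 0 := by
      intro i
      apply hle
      rw [hback]
      exact hx i
    have h2 := hcx _ h1
    have h3 := hbr (act V' x) (act V' x)
    have h4 := hbr (act V' x) O
    rw [hback] at h3 h4
    have h5 : br G (act V' x) O = (b / a) * br R x (act V O) := by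
      field_simp
      linarith
    have h6 : br R x x = (a / b) * br G (act V' x) (act V' x) := by
      field_simp
      linarith
    rw [h5] at h2
    rw [h6]
    have h7 : (a / b : ℝ) * br G (act V' x) (act V' x) ≤
        (a / b : ℝ) * (-c * ((b / a) * br R x (act V O)) ^ 2) :=
      mul_le_mul_of_nonneg_left h2 (div_pos haR hbR).le
    refine h7.trans (le_of_eq ?_)
    field_simp
  · intro r hr
    have hr' : IsRoot G (V'.mulVec r) := root_transfer hb ha hV' hV hbz' hr
    have hrV : V.mulVec (V'.mulVec r) = r := by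
      rw [Matrix.mulVec_mulVec, hV', Matrix.one_mulVec]
    rcases h.sep _ hr' with h1 | h1
    · left
      intro x hx
      have h2 := h1 (act V' x) (fun i => by
        apply hle
        rw [hback]
        exact hx i)
      have h3 := hbr (act V' x) (up (V'.mulVec r))
      rw [← H92.up_mulVec, hback, hrV] at h3
      have h4 : (b : ℝ) * br R x (up r) ≤ 0 := by
        rw [← h3]
        exact mul_nonpos_of_nonneg_of_nonpos haR.le h2
      exact nonpos_of_mul_nonpos_right h4 hbR
    · right
      intro x hx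
      have h2 := h1 (act V' x) (fun i => by
        apply hle
        rw [hback]
        exact hx i)
      have h3 := hbr (act V' x) (up (V'.mulVec r))
      rw [← H92.up_mulVec, hback, hrV] at h3
      have h4 : 0 ≤ (b : ℝ) * br R x (up r) := by
        rw [← h3]
        exact mul_nonneg haR.le h2
      exact nonneg_of_mul_nonneg_right h4 hbR

theorem primG_dvd {R : M4} (hR : PrimG R) {a b : ℤ} (ha : a ≠ 0) (h : ∀ i j, a ∣ b * R i j) :
    a ∣ b := by
  obtain ⟨g, a', b', hg, hcop, ha', hb'⟩ : ∃ g a' b' : ℤ, g ≠ 0 ∧ IsCoprime a' b' ∧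
      a = g * a' ∧ b = g * b' := by
    refine ⟨Int.gcd a b, a / Int.gcd a b, b / Int.gcd a b, ?_, ?_, ?_, ?_⟩
    · exact_mod_cast (Int.gcd_pos_of_ne_zero_left b ha).ne'
    · rw [Int.isCoprime_iff_gcd_eq_one]
      exact Int.gcd_ediv_gcd_ediv_gcd (Int.gcd_pos_of_ne_zero_left b ha)
    · exact (Int.mul_ediv_cancel' (Int.gcd_dvd_left ..)).symm
    · exact (Int.mul_ediv_cancel' (Int.gcd_dvd_right ..)).symm
  have h1 : ∀ i j, a' ∣ R i j := by
    intro i j
    have h2 := h i j
    rw [ha', hb', mul_assoc] at h2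
    exact hcop.dvd_of_dvd_mul_left ((mul_dvd_mul_iff_left hg).1 h2)
  have h3 := hR a' h1
  rw [ha', hb']
  exact mul_dvd_mul_left g h3.dvd

theorem primG_conj {G U U' : M4} (hU : U * U' = 1) (hG : PrimG G) :
    PrimG (U.transpose * G * U) := by
  intro d hd
  apply hG d
  intro i j
  have hU2 : U'.transpose * U.transpose = 1 := by
    rw [← Matrix.transpose_mul, hU, Matrix.transpose_one]
  have h1 : G = U'.transpose * (U.transpose * G * U) * U' := by
    calc G = (U'.transpose * U.transpose) * G * (U * U') := by rw [hU2, hU]; simp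
      _ = _ := by simp only [Matrix.mul_assoc]
  rw [h1, Matrix.mul_apply]
  refine Finset.dvd_sum fun k _ => Dvd.dvd.mul_right ?_ _
  rw [Matrix.mul_apply]
  exact Finset.dvd_sum fun l _ => (hd l k).mul_left _

/-- all 2 by 2 minors are divisible by `q` -/
def Z2 (q : ℤ) (G : M4) : Prop := ∀ i j k l, q ∣ G i k * G j l - G i l * G j k

theorem not_rk2 {q : ℕ} {G : M4} : ¬ Rk2 q G ↔ Z2 q G := by
  unfold Rk2 Z2
  push Not
  rfl

theorem Z2.mul_left {q : ℤ} {G : M4} (h : Z2 q G) (A : M4) : Z2 q (A * G) := by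
  intro i j k l
  have h1 : (A * G) i k * (A * G) j l - (A * G) i l * (A * G) j k =
      ∑ a, ∑ b, A i a * A j b * (G a k * G b l - G a l * G b k) := by
    simp only [Matrix.mul_apply, Finset.sum_mul_sum, ← Finset.sum_sub_distrib]
    refine Finset.sum_congr rfl fun a _ => Finset.sum_congr rfl fun b _ => ?_
    ring
  rw [h1]
  exact Finset.dvd_sum fun a _ => Finset.dvd_sum fun b _ => Dvd.dvd.mul_left (h a b k l) _

theorem Z2.transp {q : ℤ} {G : M4} (h : Z2 q G) : Z2 q G.transpose := by
  intro i j k l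
  have := h k l i j
  simp only [Matrix.transpose_apply]
  rwa [mul_comm (G k j)] at this

theorem Z2.mul_right {q : ℤ} {G : M4} (h : Z2 q G) (A : M4) : Z2 q (G * A) := by
  have h1 := (h.transp.mul_left A.transpose).transp
  rwa [Matrix.transpose_mul, Matrix.transpose_transpose, Matrix.transpose_transpose] at h1

theorem conj_back {G R U U' : M4} (hU : U * U' = 1) (h : U.transpose * G * U = R) :
    U'.transpose * R * U' = G := by
  have hU2 : U'.transpose * U.transpose = 1 := by
    rw [← Matrix.transpose_mul, hU, Matrix.transpose_one]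
  calc U'.transpose * R * U' = (U'.transpose * U.transpose) * G * (U * U') := by
        rw [← h]; simp only [Matrix.mul_assoc]
    _ = G := by rw [hU2, hU]; simp

theorem rk2_conj {q : ℕ} {G R U U' : M4} (hU : U * U' = 1) (h : U.transpose * G * U = R)
    (hG : Rk2 q G) : Rk2 q R := by
  by_contra h1
  rw [not_rk2] at h1
  apply (not_rk2 (q := q) (G := G)).2 _ hG
  rw [← conj_back hU h]
  exact (h1.mul_left _).mul_right _

theorem dvd_mulVec {m : ℤ} {v : Z4} (A : M4) (h : ∀ i, m ∣ v i) (i : Fin 4) :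
    m ∣ A.mulVec v i := by
  unfold Matrix.mulVec dotProduct
  exact Finset.dvd_sum fun j _ => Dvd.dvd.mul_left (h j) _

theorem ssf_conj {q : ℕ} {G R U U' : M4} (hU : U * U' = 1) (hU' : U' * U = 1)
    (h : U.transpose * G * U = R) (hG : SSF q G) : SSF q R := by
  intro x hx i
  have hU2 : U'.transpose * U.transpose = 1 := by
    rw [← Matrix.transpose_mul, hU, Matrix.transpose_one]
  have h1 : G.mulVec (U.mulVec x) = U'.transpose.mulVec (R.mulVec x) := by
    rw [← h, Matrix.mulVec_mulVec, Matrix.mulVec_mulVec, ← Matrix.mul_assoc, ← Matrix.mul_assoc,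
      hU2, Matrix.one_mul]
  have h2 := hG (U.mulVec x) (fun i => by
    rw [h1]
    exact dvd_mulVec _ hx i)
  have h3 := dvd_mulVec U' h2 i
  rwa [Matrix.mulVec_mulVec, hU', Matrix.one_mulVec] at h3

theorem reduced_conj {G R U U' : M4} (hU : U * U' = 1) (hU' : U' * U = 1)
    (h : U.transpose * G * U = R) (hR : PrimG R) (hG : Reduced G) : Reduced R := by
  refine ⟨hR, fun p hp => ?_, fun p hp hp7 hs => ?_⟩
  · have h2 := hG.2.1 p hp
    exact ⟨ssf_conj hU hU' h h2.1, rk2_conj hU h h2.2⟩
  · exact rk2_conj hU h (hG.2.2 p hp hp7 (ssf_conj hU' hU (conj_back hU h) hs))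

theorem trf : TrfStmt := by
  intro G R U a b m f O hG ha hb hrel hC
  set V : M4 := ((U⁻¹ : M4ˣ) : M4) with hVdef
  set V' : M4 := (U : M4) with hV'def
  have hV : V' * V = 1 := by simp [hVdef, hV'def]
  have hV' : V * V' = 1 := by simp [hVdef, hV'def]
  have hVt : V.transpose * V'.transpose = 1 := by
    rw [← Matrix.transpose_mul, hV, Matrix.transpose_one]
  have hrel2 : a • G = b • (V.transpose * R * V) := by
    calc a • G = V.transpose * (a • (V'.transpose * G * V')) * V := by
          rw [Matrix.mul_smul, Matrix.smul_mul]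
          congr 1
          calc G = (V.transpose * V'.transpose) * G * (V' * V) := by rw [hVt, hV]; simp
            _ = _ := by simp only [Matrix.mul_assoc]
      _ = b • (V.transpose * R * V) := by
          rw [hrel, Matrix.mul_smul, Matrix.smul_mul]
  have hbz : ∀ x y, a * bz G x y = b * bz R (V.mulVec x) (V.mulVec y) := bz_W hrel2
  have hbr : ∀ x y, (a : ℝ) * br G x y = b * br R (act V x) (act V y) := br_W hrel2
  have hbz' : ∀ x y, b * bz R x y = a * bz G (V'.mulVec x) (V'.mulVec y) := bz_W hrel.symm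
  have hbr' : ∀ x y, (b : ℝ) * br R x y = a * br G (act V' x) (act V' y) := br_W hrel.symm
  have hR : Lat R := lat_up (W := V) (W' := V') one_pos ha hb (by rw [hV', one_smul]) hrel2 hG
  have hVf : (fun i => V'.mulVec (V.mulVec (f i))) = f := by
    funext i
    rw [Matrix.mulVec_mulVec, hV, Matrix.one_mulVec]
  have hIsV : ∀ i j k, IsV G f i j k ↔ IsV R (fun i => V.mulVec (f i)) i j k := by
    intro i j k
    constructor
    · exact isV_transfer ha hb hV hbr
    · intro h
      have h1 := isV_transfer hb ha hV' hbr' h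
      rwa [hVf] at h1
  have hnn : ∀ x y, nn R (V.mulVec x) (V.mulVec y) = nn G x y := nn_transfer ha hb hbz
  have hfar : ∀ i j k l m', FarF G f i j k l m' → FarF R (fun i => V.mulVec (f i)) i j k l m' := by
    intro i j k l m' h r hr hV2
    have h1 := h r hr ((hIsV i j r).2 hV2)
    show nn R (V.mulVec (f k)) (V.mulVec (f r)) ≤ farBN (nn R (V.mulVec (f i)) (V.mulVec (f j)))
      (nn R (V.mulVec (f i)) (V.mulVec (f k))) (nn R (V.mulVec (f i)) (V.mulVec (f r)))
      (nn R (V.mulVec (f j)) (V.mulVec (f r))) l m'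
    rw [hnn, hnn, hnn, hnn, hnn]
    exact h1
  refine ⟨hR, ⟨_, cham_transfer ha hb hV hV' hbz hbz' hbr hC⟩, fun i j k => (hIsV i j k).1,
    fun i j => hnn _ _, hfar, ?_, ?_⟩
  · intro hGp hRp
    have hM : PrimG (V'.transpose * G * V') := primG_conj hV hGp
    have hab : a = b := by
      have h1 : a ∣ b := primG_dvd hRp ha.ne' (fun i j => by
        have := congrFun (congrFun hrel i) j
        simp only [Matrix.smul_apply, smul_eq_mul] at this
        rw [← this]
        exact dvd_mul_right _ _)
      have h2 : b ∣ a := primG_dvd hM hb.ne' (fun i j => by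
        have := congrFun (congrFun hrel i) j
        simp only [Matrix.smul_apply, smul_eq_mul] at this
        rw [this]
        exact dvd_mul_right _ _)
      exact Int.dvd_antisymm ha.le hb.le h1 h2
    have heq : V'.transpose * G * V' = R := by
      rw [hab] at hrel
      exact cancel_smulM hb.ne' hrel
    exact ⟨heq, reduced_conj hV hV' heq hRp⟩
  · intro tag n code σ hc
    exact
      { n4 := hc.n4
        n6 := hc.n6
        t0 := hc.t0
        inj := hc.inj
        num := fun i j hi hj hij => by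
          rw [← hc.num i j hi hj hij]
          exact hnn _ _
        v0 := (hIsV _ _ _).1 hc.v0
        v1 := (hIsV _ _ _).1 hc.v1
        v2 := fun h => (hIsV _ _ _).1 (hc.v2 h)
        v3 := fun h => (hIsV _ _ _).1 (hc.v3 h)
        far0 := fun h => hfar _ _ _ _ _ (hc.far0 h)
        far1 := fun h1 h2 h3 => hfar _ _ _ _ _ (hc.far1 h1 h2 h3)
        far2 := fun h => hfar _ _ _ _ _ (hc.far2 h) }

end Pool.Agent.Refl.H93
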