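import Pool.Agent.Helper23_Refl.StmtC3
import Pool.Agent.Helper93_Refl.Trf
import Pool.Agent.Helper93_Refl.Lina

/-!
# STG1: classification of the reduced lattices from the certificates
-/

namespace Pool.Agent.Refl.H93

open Matrix Pool.Agent.Refl

theorem exists_neg {G : M4} (h : Sig31 G) : ∃ x : R4, br G x x < 0 := by
  obtain ⟨P, -, hP⟩ := h
  refine ⟨fun i => P i 3, ?_⟩
  have h1 := congrFun (congrFun hP 3) 3
  have h2 : (P.transpose * G.map (Int.cast : ℤ → ℝ) * P) 3 3 =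
      br G (fun i => P i 3) (fun i => P i 3) := by
    rw [Matrix.mul_apply]
    simp only [Matrix.mul_apply, Matrix.transpose_apply, Matrix.map_apply, Finset.sum_mul, br]
    rw [Finset.sum_comm]
  rw [← h2, h1, Matrix.diagonal_apply_eq]
  have h3 : (![1, 1, 1, -1] : Fin 4 → ℝ) 3 = -1 := rfl
  rw [h3]
  norm_num

theorem isom_trans {A B C : M4} (h1 : Isom A B) (h2 : Isom B C) : Isom A C := by
  obtain ⟨U, hU⟩ := h1
  obtain ⟨V, hV⟩ := h2
  refine ⟨U * V, ?_⟩
  rw [← hV, ← hU, Units.val_mul, Matrix.transpose_mul]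
  simp only [Matrix.mul_assoc]

theorem isom_of_similar {A B : M4} (hA : PrimG A) (hB : PrimG B) (h : Similar A B) : Isom A B := by
  obtain ⟨U, a, b, ha, hb, h⟩ := h
  have hU : (U : M4) * ((U⁻¹ : M4ˣ) : M4) = 1 := by simp
  have hA' := primG_conj hU hA
  have hij : ∀ i j, a * ((U : M4).transpose * A * (U : M4)) i j = b * B i j := by
    intro i j
    have := congrFun (congrFun h i) j
    simpa only [Matrix.smul_apply, smul_eq_mul] using this
  have h1 : a ∣ b := primG_dvd hB ha.ne' fun i j => ⟨_, (hij i j).symm⟩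
  have h2 : b ∣ a := primG_dvd hA' hb.ne' fun i j => ⟨_, hij i j⟩
  have hab : a = b := by
    have h3 := Int.le_of_dvd hb h1
    have h4 := Int.le_of_dvd ha h2
    omega
  subst hab
  exact ⟨U, cancel_smulM ha.ne' h⟩

theorem similar_up (hT : TransStmt) {G R : M4} (hG : Lat G) (h : Similar G R) :
    Lat R ∧ (Reflective G → Reflective R) := by
  obtain ⟨U, a, b, ha, hb, h⟩ := h
  obtain ⟨a', rfl⟩ := Int.eq_ofNat_of_zero_le ha.le
  obtain ⟨b', rfl⟩ := Int.eq_ofNat_of_zero_le hb.le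
  have ha' : 0 < a' := by exact_mod_cast ha
  have hb' : 0 < b' := by exact_mod_cast hb
  have e1 : (U : M4) * ((U⁻¹ : M4ˣ) : M4) = 1 := by simp
  have e2 : ((U⁻¹ : M4ˣ) : M4).transpose * (U : M4).transpose = 1 := by
    rw [← Matrix.transpose_mul, e1, Matrix.transpose_one]
  refine hT G R ((U⁻¹ : M4ˣ) : M4) (U : M4) 1 a' b' one_pos ha' hb' (by simp) ?_ hG ?_
  · calc (a' : ℤ) • G = (a' : ℤ) • ((((U⁻¹ : M4ˣ) : M4).transpose * (U : M4).transpose) * G *
            ((U : M4) * ((U⁻¹ : M4ˣ) : M4))) := by rw [e1, e2]; simp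
      _ = ((U⁻¹ : M4ˣ) : M4).transpose * ((a' : ℤ) • ((U : M4).transpose * G * (U : M4))) *
            ((U⁻¹ : M4ˣ) : M4) := by
          simp only [Matrix.mul_smul, Matrix.smul_mul, Matrix.mul_assoc]
      _ = ((U⁻¹ : M4ˣ) : M4).transpose * ((b' : ℤ) • R) * ((U⁻¹ : M4ˣ) : M4) := by rw [h]
      _ = _ := by simp only [Matrix.mul_smul, Matrix.smul_mul]
  · intro g hg
    refine ⟨U⁻¹ * g * U, ?_, by simp [Matrix.mul_assoc]⟩
    have hg' : (g : M4).transpose * G * (g : M4) = G := hg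
    show ((U⁻¹ * g * U : M4ˣ) : M4).transpose * R * ((U⁻¹ * g * U : M4ˣ) : M4) = R
    apply cancel_smulM (by exact_mod_cast hb'.ne' : (b' : ℤ) ≠ 0)
    calc (b' : ℤ) • (((U⁻¹ * g * U : M4ˣ) : M4).transpose * R * ((U⁻¹ * g * U : M4ˣ) : M4))
        = (U : M4).transpose * (g : M4).transpose * (((U⁻¹ : M4ˣ) : M4).transpose *
            ((b' : ℤ) • R) * ((U⁻¹ : M4ˣ) : M4)) * (g : M4) * (U : M4) := by
          simp only [Units.val_mul, Matrix.transpose_mul, Matrix.mul_smul, Matrix.smul_mul,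
            Matrix.mul_assoc]
      _ = (U : M4).transpose * (g : M4).transpose * (((U⁻¹ : M4ˣ) : M4).transpose *
            ((a' : ℤ) • ((U : M4).transpose * G * (U : M4))) * ((U⁻¹ : M4ˣ) : M4)) *
            (g : M4) * (U : M4) := by rw [h]
      _ = (a' : ℤ) • ((U : M4).transpose * ((g : M4).transpose *
            ((((U⁻¹ : M4ˣ) : M4).transpose * (U : M4).transpose) * G *
            ((U : M4) * ((U⁻¹ : M4ˣ) : M4))) * (g : M4)) * (U : M4)) := by
          simp only [Matrix.mul_smul, Matrix.smul_mul, Matrix.mul_assoc]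
      _ = (a' : ℤ) • ((U : M4).transpose * ((g : M4).transpose * G * (g : M4)) * (U : M4)) := by
          rw [e1, e2, Matrix.one_mul, Matrix.mul_one]
      _ = (b' : ℤ) • R := by rw [hg', h]

theorem tupX_eq (tb tn cb cn x s : ℕ) : K.tupX tb tn cb cn x s =
    K.tupC tb tn cb cn (x % 4) (K.sel (x % 4) 4 5 5 6) (x / 4) s := by
  unfold K.tupX
  rw [fc_eq, fc_eq]
  rfl

theorem stg1 (hGen : GenStmt) (hCh : ChamStmt) (hTr : TransStmt) (hEnu : EnuStmt)
    (hTup : TupStmt) : Stg1Stmt := by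
  intro L tb tn cb cn A h1 h2 h3 hL hT hC G hG hR hred
  obtain ⟨x0, hx0⟩ := exists_neg hG.sig
  obtain ⟨O, -, hO, hO'⟩ := hGen G hG x0 1 hx0 one_pos
  obtain ⟨n, e, hcham⟩ := hCh G hG hR O hO hO'
  obtain ⟨x, hx, σ, hconf⟩ := hEnu L h1 h2 h3 G n e O hG hcham
  obtain ⟨s, hs⟩ := hL x hx
  rw [tupX_eq] at hs
  rcases hTup tb tn cb cn _ _ _ s hs G n e O σ hG hred hcham hconf with ⟨j, hj, hsim⟩ |
    ⟨j, hj, hsim⟩
  · obtain ⟨hp, T, hTA, hTi⟩ := hT j hj
    exact ⟨T, hTA, isom_trans (isom_of_similar hred.1 hp hsim) hTi⟩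
  · obtain ⟨hl, hr⟩ := similar_up hTr hG hsim
    exact absurd (hr hR) (hC j hj hl)

end Pool.Agent.Refl.H93
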