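import Pool.Agent.Helper93_Refl.Lina

/-!
# VCHK: contradictions between a root and the vertices
-/

namespace Pool.Agent.Refl.H93

open Matrix Pool.Agent.Refl

theorem vI_smul (D : ℤ) (v : K.I4) : vI (K.smul D v) = D • vI v := by
  ext i
  fin_cases i <;> rfl

theorem vI_add (u v : K.I4) : vI (K.addI u v) = vI u + vI v := by
  ext i
  fin_cases i <;> rfl

theorem mixC_iff (r a b c : K.I4) (D : ℕ) (al be ga : ℤ) : K.mixC r a b c D al be ga = true ↔
    1 ≤ D ∧ (D : ℤ) • vI r = al • vI a + be • vI b + ga • vI c ∧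
      (0 < al ∨ 0 < be ∨ 0 < ga) ∧ (al < 0 ∨ be < 0 ∨ ga < 0) := by
  rw [K.mixC, ands_iff, ands_iff, ands_iff, eqI_iff, orb_iff, orb_iff, orb_iff, orb_iff,
    posI_iff, posI_iff, posI_iff, negb_iff, negb_iff, negb_iff, vI_smul, vI_add, vI_add,
    vI_smul, vI_smul, vI_smul, Nat.ble_eq]
  rfl

theorem sepC_iff (r a b c d a' b' c' d' : K.I4) : K.sepC r a b c d a' b' c' d' = true ↔
    ((0 < K.det4 a b c r ∧ 0 < K.det4 a b c d) ∨ (K.det4 a b c r < 0 ∧ K.det4 a b c d < 0)) ∧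
    ((0 < K.det4 a' b' c' r ∧ K.det4 a' b' c' d' < 0) ∨
      (K.det4 a' b' c' r < 0 ∧ 0 < K.det4 a' b' c' d')) := by
  show K.orb (K.ands (K.orb (K.ands (K.posI (K.det4 a b c r)) (K.posI (K.det4 a b c d)))
      (K.ands (K.negb (K.det4 a b c r)) (K.negb (K.det4 a b c d))))
    (K.orb (K.ands (K.posI (K.det4 a' b' c' r)) (K.negb (K.det4 a' b' c' d')))
      (K.ands (K.negb (K.det4 a' b' c' r)) (K.posI (K.det4 a' b' c' d'))))) false = true ↔ _
  rw [orb_iff, ands_iff, orb_iff, orb_iff, ands_iff, ands_iff, ands_iff, ands_iff, posI_iff,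
    posI_iff, negb_iff, negb_iff, posI_iff, negb_iff, negb_iff, posI_iff]
  simp

/-- the vertices of a configuration -/
theorem conf_vertex {G : M4} {m : ℕ} {f : Fin m → Z4} {tag n code : ℕ} {σ : Fin 6 → Fin m}
    (hc : Conf G f tag n code σ) {v : ℕ} (hv : v < n - 2) :
    ∃ i j k l : Fin 6, (i : ℕ) < n ∧ (j : ℕ) < n ∧ (k : ℕ) < n ∧ (l : ℕ) < n ∧
      K.sel v 0 0 0 1 = i ∧ K.sel v 1 1 2 2 = j ∧ K.sel v 2 3 4 5 = k ∧ K.sel v 3 2 1 0 = l ∧
      IsV G f (σ i) (σ j) (σ k) ∧ σ l ≠ σ i ∧ σ l ≠ σ j ∧ σ l ≠ σ k := by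
  have h4 := hc.n4
  have h6 := hc.n6
  have hv4 : v < 4 := by omega
  interval_cases v
  · refine ⟨0, 1, 2, 3, ?_, ?_, ?_, ?_, rfl, rfl, rfl, rfl, hc.v0, ?_, ?_, ?_⟩
    all_goals first | (show _ < n; simp; omega) | (apply hc.inj <;> simp <;> omega)
  · refine ⟨0, 1, 3, 2, ?_, ?_, ?_, ?_, rfl, rfl, rfl, rfl, hc.v1, ?_, ?_, ?_⟩
    all_goals first | (show _ < n; simp; omega) | (apply hc.inj <;> simp <;> omega)
  · refine ⟨0, 2, 4, 1, ?_, ?_, ?_, ?_, rfl, rfl, rfl, rfl, hc.v2 (by omega), ?_, ?_, ?_⟩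
    all_goals first | (show _ < n; simp; omega) | (apply hc.inj <;> simp <;> omega)
  · refine ⟨1, 2, 5, 0, ?_, ?_, ?_, ?_, rfl, rfl, rfl, rfl, hc.v3 (by omega), ?_, ?_, ?_⟩
    all_goals first | (show _ < n; simp; omega) | (apply hc.inj <;> simp <;> omega)

theorem vchk (hMix : MixStmt) (hSep : SepStmt) : VChkStmt := by
  intro A m f O tag n code σ g hL hC hconf hg r v v' hr hv hv'
  obtain ⟨i, j, k, l, hi, hj, hk, hl, ei, ej, ek, el, hV, hli, hlj, hlk⟩ := conf_vertex hconf hv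
  obtain ⟨i', j', k', l', hi', hj', hk', hl', ei', ej', ek', el', hV', hli', hlj', hlk'⟩ :=
    conf_vertex hconf hv'
  rw [ei, ej, ek, el, ei', ej', ek', el']
  have hroot := (isR_iff A r).1 hr
  constructor
  · intro D al be ga
    by_contra h
    rw [Bool.not_eq_false, mixC_iff, hg i hi, hg j hj, hg k hk] at h
    obtain ⟨hD, heq, hpos, hneg⟩ := h
    have h1 := hMix (matI A) m f O hL hC (σ i) (σ j) (σ k) hV (vI r) hroot D al be ga
      (by exact_mod_cast hD) heq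
    omega
  · by_contra h
    rw [Bool.not_eq_false, sepC_iff, det4_vI, det4_vI, det4_vI, det4_vI, hg i hi, hg j hj,
      hg k hk, hg l hl, hg i' hi', hg j' hj', hg k' hk', hg l' hl'] at h
    obtain ⟨h1, h2⟩ := h
    have h3 : 0 < d4 (f (σ i)) (f (σ j)) (f (σ k)) (vI r) *
        d4 (f (σ i)) (f (σ j)) (f (σ k)) (f (σ l)) := by
      rcases h1 with ⟨h1, h1'⟩ | ⟨h1, h1'⟩
      · exact mul_pos h1 h1'
      · exact mul_pos_of_neg_of_neg h1 h1'
    have h4 := hSep (matI A) m f O hL hC (σ i) (σ j) (σ k) (σ l) (σ i') (σ j') (σ k') (σ l') hV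
      hli hlj hlk hV' hli' hlj' hlk' (vI r) hroot h3
    rcases h2 with ⟨h2, h2'⟩ | ⟨h2, h2'⟩
    · exact absurd h4 (not_le.2 (mul_neg_of_pos_of_neg h2 h2'))
    · exact absurd h4 (not_le.2 (mul_neg_of_neg_of_pos h2 h2'))

end Pool.Agent.Refl.H93
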