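import Pool.Agent.Helper23_Refl.StmtC3
import Pool.Agent.Helper93_Refl.Lina

/-!
# Tools for the enumeration
-/

namespace Pool.Agent.Refl.H93

open Matrix Pool.Agent.Refl

/-- a loop body which passes on to its continuation -/
def Pass (F : K.Kt → K.Kt) : Prop :=
  ∀ k l, F k l = true → ∃ l1 l2, l = l1 ++ l2 ∧ k l2 = true

/-- a loop body which emits the code with tag `tag` and numbers `ns` -/
def Emits (tag : ℕ) (ns : List ℕ) (F : K.Kt → K.Kt) : Prop :=
  ∀ k l, F k l = true → K.small ns = true ∧
    ∃ l1 l2, l = l1 ++ l2 ∧ (4 * K.pk ns + tag) ∈ l1 ∧ k l2 = true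

theorem Pass.id : Pass (fun k => k) := fun _ l h => ⟨[], l, rfl, h⟩

theorem Emits.pass {tag : ℕ} {ns : List ℕ} {F : K.Kt → K.Kt} (h : Emits tag ns F) : Pass F := by
  intro k l hk
  obtain ⟨-, l1, l2, h1, -, h2⟩ := h k l hk
  exact ⟨l1, l2, h1, h2⟩

theorem emit_emits (tag : ℕ) (ns : List ℕ) : Emits tag ns (fun k => K.emit tag ns k) := by
  intro k l h
  have h' : Bool.rec (motive := fun _ => Bool) false
    (K.eat (4 * K.pk ns + tag) k l) (K.small ns) = true := h
  by_cases hs : K.small ns = true
  · rw [hs] at h'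
    refine ⟨hs, ?_⟩
    cases l with
    | nil => exact absurd h' (by simp [K.eat])
    | cons a l =>
      have h2 : Bool.rec (motive := fun _ => Bool) false (k l)
        (Nat.beq a (4 * K.pk ns + tag)) = true := h'
      by_cases ha : Nat.beq a (4 * K.pk ns + tag) = true
      · rw [ha] at h2
        refine ⟨[a], l, rfl, ?_, h2⟩
        rw [Nat.eq_of_beq_eq_true ha]
        exact List.mem_singleton_self _
      · rw [Bool.not_eq_true] at ha
        rw [ha] at h2
        exact absurd h2 (by simp)
  · rw [Bool.not_eq_true] at hs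
    rw [hs] at h'
    exact absurd h' (by simp)

theorem emit_pass (tag : ℕ) (ns : List ℕ) : Pass (fun k => K.emit tag ns k) :=
  (emit_emits tag ns).pass

theorem ifb_pass {b : Bool} {A : K.Kt → K.Kt} (hA : Pass A) : Pass (fun k => K.ifb b (A k) k) := by
  intro k l h
  cases b with
  | true => exact hA k l h
  | false => exact ⟨[], l, rfl, h⟩

theorem ifb_emits {tag : ℕ} {ns : List ℕ} {b : Bool} {A : K.Kt → K.Kt} (hb : b = true)
    (hA : Emits tag ns A) : Emits tag ns (fun k => K.ifb b (A k) k) := by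
  intro k l h
  subst hb
  exact hA k l h

theorem rng_succ (n : ℕ) (body : ℕ → K.Kt → K.Kt) (k : K.Kt) (x : ℕ) (l : List ℕ) :
    K.rng (n + 1) body k x l = body x (K.rng n body k (x + 1)) l := by
  show K.fc x (fun x => body x (K.rng n body k (Nat.succ x)) l) = _
  rw [fc_eq]

theorem rng_pass {n : ℕ} {body : ℕ → K.Kt → K.Kt} (hA : ∀ i, Pass (body i)) (x : ℕ) :
    Pass (fun k => K.rng n body k x) := by
  induction n generalizing x with
  | zero => exact fun k l h => ⟨[], l, rfl, h⟩
  | succ n ih =>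
    intro k l h
    have h' : K.rng (n + 1) body k x l = true := h
    rw [rng_succ] at h'
    obtain ⟨l1, l2, h1, h2⟩ := hA x _ _ h'
    obtain ⟨l3, l4, h3, h4⟩ := ih (x + 1) k l2 h2
    exact ⟨l1 ++ l3, l4, by rw [h1, h3, List.append_assoc], h4⟩

theorem rng_emits {tag : ℕ} {ns : List ℕ} {n : ℕ} {body : ℕ → K.Kt → K.Kt}
    (hP : ∀ i, Pass (body i)) {i : ℕ} (x : ℕ) (hx : x ≤ i) (hi : i < x + n)
    (hA : Emits tag ns (body i)) : Emits tag ns (fun k => K.rng n body k x) := by
  induction n generalizing x with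
  | zero => omega
  | succ n ih =>
    intro k l h
    have h' : K.rng (n + 1) body k x l = true := h
    rw [rng_succ] at h'
    by_cases hxi : x = i
    · subst hxi
      obtain ⟨hs, l1, l2, h1, hm, h2⟩ := hA _ _ h'
      obtain ⟨l3, l4, h3, h4⟩ := rng_pass hP (x + 1) k l2 h2
      exact ⟨hs, l1 ++ l3, l4, by rw [h1, h3, List.append_assoc],
        List.mem_append_left _ hm, h4⟩
    · obtain ⟨l1, l2, h1, h2⟩ := hP x _ _ h'
      obtain ⟨hs, l3, l4, h3, hm, h4⟩ := ih (x + 1) (by omega) (by omega) k l2 h2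
      exact ⟨hs, l1 ++ l3, l4, by rw [h1, h3, List.append_assoc],
        List.mem_append_right _ hm, h4⟩

/-- decoding -/
theorem pk_get {ns : List ℕ} (hs : K.small ns = true) (i : ℕ) (hi : i < ns.length) :
    (K.pk ns >>> (12 * i)) % 4096 = ns[i] := by
  induction ns generalizing i with
  | nil => exact absurd hi (by simp)
  | cons a r ih =>
    have hs' : Bool.rec (motive := fun _ => Bool) false (K.small r) (Nat.blt a 4096) = true := hs
    have ha : Nat.blt a 4096 = true := by
      by_contra h
      rw [Bool.not_eq_true] at h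
      rw [h] at hs'
      exact absurd hs' (by simp)
    rw [ha] at hs'
    have ha' : a < 4096 := by simpa using ha
    have hpk : K.pk (a :: r) = a + 4096 * K.pk r := rfl
    cases i with
    | zero =>
      simp only [mul_zero, Nat.shiftRight_zero, List.getElem_cons_zero]
      rw [hpk, Nat.add_mul_mod_self_left, Nat.mod_eq_of_lt ha']
    | succ i =>
      have h1 : K.pk (a :: r) >>> (12 * (i + 1)) = K.pk r >>> (12 * i) := by
        rw [Nat.shiftRight_eq_div_pow, Nat.shiftRight_eq_div_pow, hpk]
        have e1 : 2 ^ (12 * (i + 1)) = 4096 * 2 ^ (12 * i) := by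
          rw [mul_add, pow_add]
          norm_num
          ring
        rw [e1, ← Nat.div_div_eq_div_mul]
        congr 1
        omega
      rw [h1, List.getElem_cons_succ]
      exact ih hs' i (by simpa using hi)

theorem isq_iff (hSq : SqKStmt) (n : ℕ) : K.isq n = true ↔ IsSquare n := by
  have h : K.isq n = Nat.beq (Nat.sqrt n * Nat.sqrt n) n := by
    rw [K.isq, fc_eq, fc_eq, hSq]
    rfl
  rw [h, Nat.beq_eq]
  constructor
  · intro h
    exact ⟨Nat.sqrt n, h.symm⟩
  · rintro ⟨r, rfl⟩
    rw [Nat.sqrt_eq]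

end Pool.Agent.Refl.H93
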